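import Pool.Agent.Helper26.Cm.Kv

/-! # The two-group theorem for absolutely continuous laws -/

set_option autoImplicit false

open MeasureTheory Filter Topology ProbabilityTheory
open scoped BigOperators ENNReal NNReal InnerProductSpace ComplexConjugate

namespace Pool.Agent.Helper26.Dj

open Pool.Agent.H5R2.NB Pool.Agent.Helper26.Nb Pool.Agent.Helper26.Cm

theorem kvC {ι : Type} [Countable ι] (W' : UG (L2 ι)) (U : ℝ → UG (L2 ι)) (e : L2 ι)
    (h : Fam U e)
    (ν : Measure ℝ) [IsProbabilityMeasure ν] (hν : ν ≪ volume) (Nk : ℕ → ℕ)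
    (hNk : Tendsto Nk atTop atTop)
    (v : ℝ → L2 ι →L[ℂ] L2 ι) (hv : Continuous v) (hfr : ∀ κ κ', FR (v κ - v κ'))
    (B : ℝ → L2 ι →L[ℂ] L2 ι) (hB : ∀ᵐ κ ∂ν, GGood W' (U κ) (v κ) Nk (B κ)) :
    ∀ᵐ κ ∂ν, B κ e = 0 := by
  set f : ℝ → ℝ≥0∞ := ν.rnDeriv volume with hf
  have hfm : Measurable f := Measure.measurable_rnDeriv _ _
  have hwd : volume.withDensity f = ν := Measure.withDensity_rnDeriv_eq _ _ hν
  have hfin : ∀ᵐ κ ∂ν, f κ < ∞ := hν.ae_le (Measure.rnDeriv_lt_top ν volume)
  set O : ℕ → Set ℝ := fun n => {κ | f κ ≤ n} with hO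
  have hOm : ∀ n, MeasurableSet (O n) := fun n => measurableSet_le hfm measurable_const
  have claim : ∀ n, ∀ᵐ κ ∂ν, κ ∈ O n → B κ e = 0 := by
    intro n
    by_cases h0 : ν (O n) = 0
    · have : ∀ᵐ κ ∂ν, κ ∉ O n := measure_eq_zero_iff_ae_notMem.1 h0
      filter_upwards [this] with κ hκ h1
      exact absurd h1 hκ
    · have hp : IsProbabilityMeasure (ProbabilityTheory.cond ν (O n)) :=
        cond_isProbabilityMeasure h0
      have h2 : ν (O n) ≠ ∞ := measure_ne_top _ _
      have hC : ProbabilityTheory.cond ν (O n) ≤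
          ((ν (O n)).toNNReal⁻¹ * (n : ℝ≥0)) • (volume : Measure ℝ) := by
        have h3 : ((((ν (O n)).toNNReal⁻¹ : ℝ≥0)) : ℝ≥0∞) = (ν (O n))⁻¹ := by
          rw [ENNReal.coe_inv, ENNReal.coe_toNNReal h2]
          intro h0'
          rw [ENNReal.toNNReal_eq_zero_iff] at h0'
          rcases h0' with h0' | h0'
          · exact h0 h0'
          · exact h2 h0'
        refine Measure.le_iff.2 fun A hA => ?_
        rw [cond_apply (hOm n), Measure.smul_apply, ENNReal.smul_def, ENNReal.coe_mul, h3,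
          smul_eq_mul, mul_assoc]
        gcongr
        have h4 : ν (O n ∩ A) = ∫⁻ κ in O n ∩ A, f κ := by
          conv_lhs => rw [← hwd]
          exact withDensity_apply _ ((hOm n).inter hA)
        rw [h4]
        calc ∫⁻ κ in O n ∩ A, f κ ≤ ∫⁻ _ in O n ∩ A, (n : ℝ≥0∞) :=
              setLIntegral_mono' ((hOm n).inter hA) fun κ hκ => hκ.1
          _ = (n : ℝ≥0∞) * volume (O n ∩ A) := by rw [setLIntegral_const]
          _ ≤ _ := by
            rw [ENNReal.coe_natCast]
            gcongr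
            exact Set.inter_subset_right
      have hac : ProbabilityTheory.cond ν (O n) ≪ ν := by
        have h3 : ProbabilityTheory.cond ν (O n) = (ν (O n))⁻¹ • ν.restrict (O n) := rfl
        rw [h3]
        exact (Measure.smul_absolutelyContinuous).trans Measure.restrict_le_self.absolutelyContinuous
      exact ae_of_cond (hOm n) (kvB W' U e h _ _ hC Nk hNk v hv hfr B (hac.ae_le hB))
  filter_upwards [ae_all_iff.2 claim, hfin] with κ hκ h1
  obtain ⟨n, hn⟩ := ENNReal.exists_nat_gt h1.ne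
  exact hκ n hn.le

end Pool.Agent.Helper26.Dj
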