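import Pool.Agent.Helper26.Dj.Lima
import Pool.Agent.Helper26.Cm.Av

/-! # Time averages for two covariant evolutions -/

set_option autoImplicit false

open MeasureTheory Filter Topology ProbabilityTheory
open scoped BigOperators ENNReal NNReal InnerProductSpace ComplexConjugate

namespace Pool.Agent.Helper26.Dj

open Pool.Agent.H5R2.NB Pool.Agent.Helper26.Nb Pool.Agent.Helper26.Cm

variable {d : ℕ} {α : Type} [MeasurableSpace α]
  {W' W : (Site d → α) → UG (L2 (Site d))}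
  {v : (Site d → α) → L2 (Site d) →L[ℂ] L2 (Site d)}

/-- covariant measurable evolutions -/
structure CE (W : (Site d → α) → UG (L2 (Site d))) : Prop where
  cv : ∀ t, Cv fun V => (W V).U t

/-- `W'(-s) v W(s) δ₀` -/
noncomputable def tb (W' W : (Site d → α) → UG (L2 (Site d)))
    (v : (Site d → α) → L2 (Site d) →L[ℂ] L2 (Site d)) (s : ℝ) (V : Site d → α) : L2 (Site d) :=
  (W' V).U (-s) (v V ((W V).U s (dl 0)))

theorem stat_w (hW' : CE W') (hW : CE W) (hv : Cv v)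
    (ρ : Measure α) [IsProbabilityMeasure ρ] (s s' a : ℝ) :
    ∫ V, ⟪tb W' W v (s + a) V, tb W' W v (s' + a) V⟫_ℂ
        ∂(Measure.infinitePi fun _ : Site d => ρ) =
      ∫ V, ⟪tb W' W v s V, tb W' W v s' V⟫_ℂ
        ∂(Measure.infinitePi fun _ : Site d => ρ) := by
  have hXs : ∀ s, Cv fun V : Site d → α => ((W' V).U (-s)).comp
      ((v V).comp ((W V).U s)) := fun s =>
    (hW'.cv (-s)).comp (hv.comp (hW.cv s))
  have hXa : ∀ s, Cv fun V : Site d → α => (((W' V).U (-s)).comp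
      ((v V).comp ((W V).U s))).comp ((W V).U a) := fun s =>
    (hXs s).comp (hW.cv a)
  have L : ∀ V, ⟪tb W' W v (s + a) V, tb W' W v (s' + a) V⟫_ℂ =
      ⟪((((W' V).U (-s)).comp ((v V).comp ((W V).U s))).comp
        ((W V).U a)) (dl 0), ((((W' V).U (-s')).comp
        ((v V).comp ((W V).U s'))).comp ((W V).U a)) (dl 0)⟫_ℂ := by
    intro V
    have e : ∀ t, tb W' W v (t + a) V = (W' V).U (-a)
        (((((W' V).U (-t)).comp ((v V).comp ((W V).U t))).comp
        ((W V).U a)) (dl 0)) := by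
      intro t
      unfold tb
      simp only [ContinuousLinearMap.comp_apply]
      rw [(W V).add' t a, neg_add_rev, (W' V).add' (-a) (-t)]
    rw [e, e, STAT.inner_UG]
  simp only [L]
  rw [(hXa s).tr (hXa s')]
  have M : ∀ V, ⟪ContinuousLinearMap.adjoint ((((W' V).U (-s')).comp
        ((v V).comp ((W V).U s'))).comp ((W V).U a)) (dl 0),
      ContinuousLinearMap.adjoint ((((W' V).U (-s)).comp
        ((v V).comp ((W V).U s))).comp ((W V).U a)) (dl 0)⟫_ℂ =
      ⟪ContinuousLinearMap.adjoint (((W' V).U (-s')).comp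
        ((v V).comp ((W V).U s'))) (dl 0),
      ContinuousLinearMap.adjoint (((W' V).U (-s)).comp
        ((v V).comp ((W V).U s))) (dl 0)⟫_ℂ := by
    intro V
    rw [adj_compU, adj_compU, STAT.inner_UG]
  simp only [M]
  rw [← (hXs s).tr (hXs s')]
  rfl

/-- the mean square of `D W(s) δ₀` does not depend on `s` -/
theorem sq_W (hW : CE W) {D : (Site d → α) → L2 (Site d) →L[ℂ] L2 (Site d)} (hD : Cv D)
    (ρ : Measure α) [IsProbabilityMeasure ρ] (s : ℝ) :
    ∫⁻ V, ‖D V ((W V).U s (dl 0))‖ₑ ^ 2 ∂(Measure.infinitePi fun _ : Site d => ρ) =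
      ∫⁻ V, ‖D V (dl 0)‖ₑ ^ 2 ∂(Measure.infinitePi fun _ : Site d => ρ) := by
  have h1 := (hD.comp (hW.cv s)).tr_sq ρ
  have h2 := hD.tr_sq ρ
  rw [h2]
  refine Eq.trans h1 ?_
  refine lintegral_congr fun V => ?_
  rw [adj_compU, ← ofReal_norm, ← ofReal_norm, (W V).norm']

theorem gP_sh (hW' : CE W') (hW : CE W) (hv : Cv v) {z : Site d}
    {S : L2 (Site d) →L[ℂ] L2 (Site d)} (hS : IsShift (-z) S) (V : Site d → α) (N : ℕ) :
    gP (W' V) (W V) (v V) N (dl z) =
      S (gP (W' (sh z V)) (W (sh z V)) (v (sh z V)) N (dl 0)) := by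
  unfold gP
  have e := ContinuousLinearMap.intervalIntegral_comp_comm S
    ((cont_gP (W' (sh z V)) (W (sh z V)) (v (sh z V))
      (dl 0)).intervalIntegrable (μ := volume) (0 : ℝ) (N : ℝ))
  rw [map_smul]
  congr 1
  refine Eq.trans ?_ e
  refine intervalIntegral.integral_congr fun s _ => ?_
  show (W' V).U (-s) (v V ((W V).U s (dl z))) = _
  rw [← LIMB.shift_dl z S hS]
  have h1 := cov_neg (hW.cv s) hS V (dl 0)
  have h2 := cov_neg hv hS V ((W (sh z V)).U s (dl 0))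
  have h3 := cov_neg (hW'.cv (-s)) hS V (v (sh z V) ((W (sh z V)).U s (dl 0)))
  rw [h1, h2, h3]

theorem gM_sh (hW' : CE W') (hW : CE W) (hv : Cv v) {z : Site d}
    {S : L2 (Site d) →L[ℂ] L2 (Site d)} (hS : IsShift (-z) S) (V : Site d → α) (N : ℕ) :
    gM (W' V) (W V) (v V) N (dl z) =
      S (gM (W' (sh z V)) (W (sh z V)) (v (sh z V)) N (dl 0)) := by
  unfold gM
  have e := ContinuousLinearMap.intervalIntegral_comp_comm S
    ((cont_gM (W' (sh z V)) (W (sh z V)) (v (sh z V))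
      (dl 0)).intervalIntegrable (μ := volume) (0 : ℝ) (N : ℝ))
  rw [map_smul]
  congr 1
  refine Eq.trans ?_ e
  refine intervalIntegral.integral_congr fun s _ => ?_
  show (W' V).U s (v V ((W V).U (-s) (dl z))) = _
  rw [← LIMB.shift_dl z S hS]
  have h1 := cov_neg (hW.cv (-s)) hS V (dl 0)
  have h2 := cov_neg hv hS V ((W (sh z V)).U (-s) (dl 0))
  have h3 := cov_neg (hW'.cv s) hS V (v (sh z V) ((W (sh z V)).U (-s) (dl 0)))
  rw [h1, h2, h3]

/-- joint measurability -/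
theorem jm_P (hW' : CE W') (hW : CE W) (hv : Cv v) {F : (Site d → α) → L2 (Site d)}
    (hF : StronglyMeasurable F) :
    StronglyMeasurable (Function.uncurry fun (V : Site d → α) (s : ℝ) =>
      (W' V).U (-s) (v V ((W V).U s (F V)))) := by
  have h1 : StronglyMeasurable (Function.uncurry fun (s : ℝ) (V : Site d → α) =>
      (W' V).U (-s) (v V ((W V).U s (F V)))) := by
    refine stronglyMeasurable_uncurry_of_continuous_of_stronglyMeasurable (fun V => ?_)
      (fun s => ?_)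
    · exact cont_gP (W' V) (W V) (v V) (F V)
    · exact (hW'.cv (-s)).sm_apply (hv.sm_apply ((hW.cv s).sm_apply hF))
  exact h1.comp_measurable measurable_swap

theorem jm_M (hW' : CE W') (hW : CE W) (hv : Cv v) {F : (Site d → α) → L2 (Site d)}
    (hF : StronglyMeasurable F) :
    StronglyMeasurable (Function.uncurry fun (V : Site d → α) (s : ℝ) =>
      (W' V).U s (v V ((W V).U (-s) (F V)))) := by
  have h1 : StronglyMeasurable (Function.uncurry fun (s : ℝ) (V : Site d → α) =>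
      (W' V).U s (v V ((W V).U (-s) (F V)))) := by
    refine stronglyMeasurable_uncurry_of_continuous_of_stronglyMeasurable (fun V => ?_)
      (fun s => ?_)
    · exact cont_gM (W' V) (W V) (v V) (F V)
    · exact (hW'.cv s).sm_apply (hv.sm_apply ((hW.cv (-s)).sm_apply hF))
  exact h1.comp_measurable measurable_swap

theorem sm_gP (hW' : CE W') (hW : CE W) (hv : Cv v) {F : (Site d → α) → L2 (Site d)}
    (hF : StronglyMeasurable F) (N : ℕ) :
    StronglyMeasurable fun V : Site d → α => gP (W' V) (W V) (v V) N (F V) := by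
  have h3 : StronglyMeasurable fun V => ∫ s in Set.Ioc (0 : ℝ) N,
      (W' V).U (-s) (v V ((W V).U s (F V))) := (jm_P hW' hW hv hF).integral_prod_right
  have h4 : (fun V => gP (W' V) (W V) (v V) N (F V)) = fun V => ((N : ℂ)⁻¹) •
      ∫ s in Set.Ioc (0 : ℝ) N, (W' V).U (-s) (v V ((W V).U s (F V))) := by
    funext V
    unfold gP
    rw [intervalIntegral.integral_of_le (Nat.cast_nonneg N)]
    rfl
  rw [h4]
  exact h3.const_smul ((N : ℂ)⁻¹)

theorem sm_gM (hW' : CE W') (hW : CE W) (hv : Cv v) {F : (Site d → α) → L2 (Site d)}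
    (hF : StronglyMeasurable F) (N : ℕ) :
    StronglyMeasurable fun V : Site d → α => gM (W' V) (W V) (v V) N (F V) := by
  have h3 : StronglyMeasurable fun V => ∫ s in Set.Ioc (0 : ℝ) N,
      (W' V).U s (v V ((W V).U (-s) (F V))) := (jm_M hW' hW hv hF).integral_prod_right
  have h4 : (fun V => gM (W' V) (W V) (v V) N (F V)) = fun V => ((N : ℂ)⁻¹) •
      ∫ s in Set.Ioc (0 : ℝ) N, (W' V).U s (v V ((W V).U (-s) (F V))) := by
    funext V
    unfold gM
    rw [intervalIntegral.integral_of_le (Nat.cast_nonneg N)]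
    rfl
  rw [h4]
  exact h3.const_smul ((N : ℂ)⁻¹)

/-- existence of the averages -/
theorem vlimG (hW' : CE W') (hW : CE W) (hv : Cv v) (ρ : Measure α) [IsProbabilityMeasure ρ] :
    ∃ (Nk : ℕ → ℕ) (b : (Site d → α) → L2 (Site d)), Tendsto Nk atTop atTop ∧
      AEStronglyMeasurable b (Measure.infinitePi fun _ : Site d => ρ) ∧
      Tendsto (fun N : ℕ => ∫⁻ V, ‖gP (W' V) (W V) (v V) N (dl 0) - b V‖ₑ ^ 2
        ∂(Measure.infinitePi fun _ : Site d => ρ)) atTop (𝓝 0) ∧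
      Tendsto (fun N : ℕ => ∫⁻ V, ‖gM (W' V) (W V) (v V) N (dl 0) - b V‖ₑ ^ 2
        ∂(Measure.infinitePi fun _ : Site d => ρ)) atTop (𝓝 0) ∧
      ∀ᵐ V ∂(Measure.infinitePi fun _ : Site d => ρ), ∃ B : L2 (Site d) →L[ℂ] L2 (Site d),
        GGood (W' V) (W V) (v V) Nk B ∧ B (dl 0) = b V := by
  set P : Measure (Site d → α) := Measure.infinitePi fun _ : Site d => ρ with hP
  obtain ⟨R, hR⟩ := hv.bdd
  have hc0 : StronglyMeasurable fun _ : Site d → α => (dl 0 : L2 (Site d)) :=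
    stronglyMeasurable_const
  obtain ⟨b, hb, hPl, hMi⟩ := LM.main P (fun s V => tb W' W v s V) R
    (fun V => cont_gP (W' V) (W V) (v V) (dl 0))
    (fun s => (hW'.cv (-s)).sm_apply (hv.sm_apply ((hW.cv s).sm_apply hc0)))
    (fun s V => by
      unfold tb
      rw [(W' V).norm']
      refine ((v V).le_opNorm _).trans ?_
      rw [(W V).norm', STAT.norm_dl, mul_one]
      exact hR V) (fun s s' a => stat_w hW' hW hv ρ s s' a)
  have hP' : Tendsto (fun N : ℕ => ∫⁻ V, ‖gP (W' V) (W V) (v V) N (dl 0) -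
      b V‖ₑ ^ 2 ∂P) atTop (𝓝 0) := hPl
  have hM' : Tendsto (fun N : ℕ => ∫⁻ V, ‖gM (W' V) (W V) (v V) N (dl 0) -
      b V‖ₑ ^ 2 ∂P) atTop (𝓝 0) := by
    have e : ∀ (V : Site d → α) (s : ℝ), tb W' W v (-s) V =
        (W' V).U s (v V ((W V).U (-s) (dl 0))) := by
      intro V s
      unfold tb
      rw [neg_neg]
    simp only [e] at hMi
    exact hMi
  have hfP : ∀ N, AEMeasurable (fun V => ‖gP (W' V) (W V) (v V) N (dl 0) -
      b V‖ₑ ^ 2) P := fun N =>
    (((sm_gP hW' hW hv hc0 N).aestronglyMeasurable).sub hb).enorm.pow_const 2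
  have hfM : ∀ N, AEMeasurable (fun V => ‖gM (W' V) (W V) (v V) N (dl 0) -
      b V‖ₑ ^ 2) P := fun N =>
    (((sm_gM hW' hW hv hc0 N).aestronglyMeasurable).sub hb).enorm.pow_const 2
  have hPM := hP'.add hM'
  rw [add_zero] at hPM
  obtain ⟨Nk, hmono, hNk⟩ := extraction_forall_of_eventually
    (P := fun n k => (∫⁻ V, ‖gP (W' V) (W V) (v V) k (dl 0) - b V‖ₑ ^ 2 ∂P) +
      (∫⁻ V, ‖gM (W' V) (W V) (v V) k (dl 0) - b V‖ₑ ^ 2 ∂P) <
        (2⁻¹ : ℝ≥0∞) ^ n)
    (fun n => (tendsto_order.1 hPM).2 _ (by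
      refine ENNReal.pow_pos ?_ n
      simp))
  refine ⟨Nk, b, hmono.tendsto_atTop, hb, hP', hM', ?_⟩
  have hfS : ∀ n, AEMeasurable (fun V => ‖gP (W' V) (W V) (v V) (Nk n) (dl 0) -
      b V‖ₑ ^ 2 + ‖gM (W' V) (W V) (v V) (Nk n) (dl 0) - b V‖ₑ ^ 2) P := fun n =>
    (hfP (Nk n)).add (hfM (Nk n))
  have hsum : ∫⁻ V, ∑' n, (‖gP (W' V) (W V) (v V) (Nk n) (dl 0) - b V‖ₑ ^ 2 +
      ‖gM (W' V) (W V) (v V) (Nk n) (dl 0) - b V‖ₑ ^ 2) ∂P ≠ ∞ := by
    rw [lintegral_tsum hfS]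
    have hle : ∑' n, ∫⁻ V, (‖gP (W' V) (W V) (v V) (Nk n) (dl 0) - b V‖ₑ ^ 2 +
        ‖gM (W' V) (W V) (v V) (Nk n) (dl 0) - b V‖ₑ ^ 2) ∂P ≤
        ∑' n : ℕ, (2⁻¹ : ℝ≥0∞) ^ n := by
      refine ENNReal.tsum_le_tsum fun n => ?_
      rw [lintegral_add_left' (hfP (Nk n))]
      exact (hNk n).le
    refine ne_top_of_le_ne_top ?_ hle
    rw [ENNReal.tsum_geometric]
    simp
  have hae := ae_lt_top' (AEMeasurable.tsum hfS) hsum
  have hG : ∀ᵐ V ∂P,
      Tendsto (fun n => gP (W' V) (W V) (v V) (Nk n) (dl 0)) atTop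
        (𝓝 (b V)) ∧
      Tendsto (fun n => gM (W' V) (W V) (v V) (Nk n) (dl 0)) atTop
        (𝓝 (b V)) := by
    filter_upwards [hae] with V hV
    have h0 := ENNReal.tendsto_atTop_zero_of_tsum_ne_top hV.ne
    constructor
    · refine LIMB.tendsto_of_enorm_sq (tendsto_of_tendsto_of_tendsto_of_le_of_le
        tendsto_const_nhds h0 (fun _ => zero_le) fun n => ?_)
      exact le_self_add
    · refine LIMB.tendsto_of_enorm_sq (tendsto_of_tendsto_of_tendsto_of_le_of_le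
        tendsto_const_nhds h0 (fun _ => zero_le) fun n => ?_)
      exact le_add_self
  have hGz : ∀ᵐ V ∂P, ∀ z : Site d,
      Tendsto (fun n => gP (W' (sh z V)) (W (sh z V)) (v (sh z V)) (Nk n)
        (dl 0)) atTop (𝓝 (b (sh z V))) ∧
      Tendsto (fun n => gM (W' (sh z V)) (W (sh z V)) (v (sh z V)) (Nk n)
        (dl 0)) atTop (𝓝 (b (sh z V))) := by
    rw [ae_all_iff]
    intro z
    exact (mp_sh (d := d) ρ z).quasiMeasurePreserving.ae hG
  filter_upwards [hGz] with V hV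
  obtain ⟨B, hB⟩ := LIMB.ext_lim (fun k => GPL (W' V) (W V) (v V) (Nk k))
    (fun k => GML (W' V) (W V) (v V) (Nk k)) ‖v V‖ (norm_nonneg _)
    (fun k x => norm_gP _ _ _ _ _)
    (fun k x => norm_gM _ _ _ _ _)
    (Site d) dl (LIMB.dl_dense d) (fun z => by
      obtain ⟨S, hS⟩ := (t_OPS d).1 (-z)
      refine ⟨S (b (sh z V)), ?_, ?_⟩
      · have := (S.continuous.tendsto _).comp (hV z).1
        refine this.congr fun k => ?_
        show _ = gP (W' V) (W V) (v V) (Nk k) (dl z)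
        rw [gP_sh hW' hW hv hS]
        rfl
      · have := (S.continuous.tendsto _).comp (hV z).2
        refine this.congr fun k => ?_
        show _ = gM (W' V) (W V) (v V) (Nk k) (dl z)
        rw [gM_sh hW' hW hv hS]
        rfl)
  refine ⟨B, hB, ?_⟩
  have h0 := (hV 0).1
  have e0 : sh 0 V = V := by
    funext y
    simp [sh]
  rw [e0] at h0
  exact tendsto_nhds_unique (hB (dl 0)).1 h0

/-- averaging is a contraction -/
theorem avg_le (hW : CE W) {D : (Site d → α) → L2 (Site d) →L[ℂ] L2 (Site d)}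
    (hD : Cv D) (ρ : Measure α) [IsProbabilityMeasure ρ] (N : ℕ) (hN : 0 < N) :
    ∫⁻ V, ‖gP (W' V) (W V) (D V) N (dl 0)‖ₑ ^ 2 ∂(Measure.infinitePi fun _ : Site d => ρ) ≤
      ∫⁻ V, ‖D V (dl 0)‖ₑ ^ 2 ∂(Measure.infinitePi fun _ : Site d => ρ) := by
  set P : Measure (Site d → α) := Measure.infinitePi fun _ : Site d => ρ with hP
  have hN0 : (N : ℝ≥0∞) ≠ 0 := by exact_mod_cast hN.ne'
  have hNt : (N : ℝ≥0∞) ≠ ∞ := ENNReal.natCast_ne_top _
  have hjm : StronglyMeasurable (Function.uncurry fun (s : ℝ) (V : Site d → α) =>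
      D V ((W V).U s (dl 0))) := by
    refine stronglyMeasurable_uncurry_of_continuous_of_stronglyMeasurable (fun V => ?_)
      (fun s => ?_)
    · exact (D V).continuous.comp ((W V).cont' _)
    · exact hD.sm_apply ((hW.cv s).sm 0)
  have hpt : ∀ V, ‖gP (W' V) (W V) (D V) N (dl 0)‖ₑ ^ 2 ≤
      (N : ℝ≥0∞)⁻¹ * ∫⁻ s in Set.Ioc (0 : ℝ) (N : ℝ), ‖D V ((W V).U s (dl 0))‖ₑ ^ 2 := by
    intro V
    refine (jens _ (cont_gP _ _ _ _) N hN).trans (le_of_eq ?_)
    congr 1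
    refine lintegral_congr fun s => ?_
    rw [← ofReal_norm, ← ofReal_norm, (W' V).norm']
  refine (lintegral_mono hpt).trans ?_
  have hm2 : Measurable fun q : (Site d → α) × ℝ =>
      ‖D q.1 ((W q.1).U q.2 (dl 0))‖ₑ ^ 2 := by
    have := hjm.comp_measurable (measurable_swap : Measurable (Prod.swap :
      (Site d → α) × ℝ → ℝ × (Site d → α)))
    exact this.enorm.pow_const 2
  rw [lintegral_const_mul _ (hm2.lintegral_prod_right' (ν := volume.restrict
    (Set.Ioc (0 : ℝ) (N : ℝ)))), lintegral_lintegral_swap hm2.aemeasurable]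
  have hs : ∀ y : ℝ, ∫⁻ x, ‖D x ((W x).U y (dl 0))‖ₑ ^ 2 ∂P =
      ∫⁻ V, ‖D V (dl 0)‖ₑ ^ 2 ∂P := fun y => sq_W hW hD ρ y
  simp only [hs]
  rw [lintegral_const, Measure.restrict_apply_univ, Real.volume_Ioc, sub_zero,
    ENNReal.ofReal_natCast, mul_comm (∫⁻ V, ‖D V (dl 0)‖ₑ ^ 2 ∂P), ← mul_assoc,
    ENNReal.inv_mul_cancel hN0 hNt, one_mul]

/-- reversed time -/
noncomputable def rev {X : Type} [NormedAddCommGroup X] [InnerProductSpace ℂ X] (W : UG X) :
    UG X where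
  U t := W.U (-t)
  zero' x := by rw [neg_zero, W.zero']
  add' s t x := by rw [neg_add, W.add']
  norm' t x := W.norm' _ x
  cont' x := (W.cont' x).comp continuous_neg

lemma ce_rev (hW : CE W) : CE fun V => rev (W V) := ⟨fun t => hW.cv (-t)⟩

lemma gM_rev {X : Type} [NormedAddCommGroup X] [InnerProductSpace ℂ X] (W' W : UG X)
    (v : X →L[ℂ] X) (N : ℕ) (x : X) : gM W' W v N x = gP (rev W') (rev W) v N x := by
  unfold gM gP
  congr 1
  refine intervalIntegral.integral_congr fun s _ => ?_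
  show W'.U s (v (W.U (-s) x)) = W'.U (-(-s)) (v (W.U (-s) x))
  rw [neg_neg]

lemma gP_rev {X : Type} [NormedAddCommGroup X] [InnerProductSpace ℂ X] (W' W : UG X)
    (v : X →L[ℂ] X) (N : ℕ) (x : X) : gP W' W v N x = gM (rev W') (rev W) v N x := by
  unfold gM gP
  congr 1
  refine intervalIntegral.integral_congr fun s _ => ?_
  show W'.U (-s) (v (W.U s x)) = W'.U (-s) (v (W.U (-(-s)) x))
  rw [neg_neg]

theorem avg_leM (hW : CE W) {D : (Site d → α) → L2 (Site d) →L[ℂ] L2 (Site d)}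
    (hD : Cv D) (ρ : Measure α) [IsProbabilityMeasure ρ] (N : ℕ) (hN : 0 < N) :
    ∫⁻ V, ‖gM (W' V) (W V) (D V) N (dl 0)‖ₑ ^ 2 ∂(Measure.infinitePi fun _ : Site d => ρ) ≤
      ∫⁻ V, ‖D V (dl 0)‖ₑ ^ 2 ∂(Measure.infinitePi fun _ : Site d => ρ) := by
  simp only [gM_rev]
  exact avg_le (W' := fun V => rev (W' V)) (ce_rev hW) hD ρ N hN

end Pool.Agent.Helper26.Dj
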