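import Pool.Agent.Helper26.Cm.Loc
import Pool.Agent.Helper26.Dj.Avg

/-! # Approximation of covariant families by local continuous ones -/

set_option autoImplicit false
set_option linter.unusedSectionVars false

open MeasureTheory Filter Topology ProbabilityTheory
open scoped BigOperators ENNReal NNReal InnerProductSpace ComplexConjugate

namespace Pool.Agent.Helper26.Dj

open Pool.Agent.H5R2.NB Pool.Agent.Helper26.Nb Pool.Agent.Helper26.Cm

variable {d : ℕ} {α : Type} [MeasurableSpace α] [TopologicalSpace α]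

/-- local, norm continuous in the value at the origin -/
structure LV (v : (Site d → α) → L2 (Site d) →L[ℂ] L2 (Site d)) : Prop where
  cv : Cv v
  fr : ∀ V r r', FR (v (Function.update V 0 r) - v (Function.update V 0 r'))
  cu : ∀ V (q : ℝ → α), Continuous q → Continuous fun κ : ℝ => v (Function.update V 0 (q κ))

lemma PF_eq (s : Finset (Site d)) (b : L2 (Site d)) : CV.PF s b = ∑ x ∈ s, b x • dl x := by
  rw [CV.PF_apply]
  refine Finset.sum_congr rfl fun x _ => ?_
  unfold dl
  rw [← lp.single_smul, smul_eq_mul, mul_one]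

theorem app [PolishSpace α] [BorelSpace α] [Inhabited α]
    {X : (Site d → α) → L2 (Site d) →L[ℂ] L2 (Site d)} (hX : Cv X)
    (ρ : Measure α) [IsProbabilityMeasure ρ] {ε : ℝ≥0∞} (hε : ε ≠ 0) :
    ∃ v : (Site d → α) → L2 (Site d) →L[ℂ] L2 (Site d), LV v ∧
      eLpNorm (fun V => X V (dl 0) - v V (dl 0)) 2 (Measure.infinitePi fun _ : Site d => ρ) ≤ ε := by
  classical
  set P : Measure (Site d → α) := Measure.infinitePi fun _ : Site d => ρ with hP
  obtain ⟨R, hR⟩ := hX.bdd
  set F : (Site d → α) → L2 (Site d) := fun V => X V (dl 0) with hF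
  have hFm : StronglyMeasurable F := hX.sm 0
  have hFR : ∀ V, ‖F V‖ ≤ R := fun V => Cv.norm_dl_le hR V 0
  have h2 : ε / 2 ≠ 0 := by simp [hε]
  have hPFm : ∀ s : Finset (Site d), StronglyMeasurable fun V => F V - CV.PF s (F V) := fun s =>
    hFm.sub ((CV.PF s).continuous.comp_stronglyMeasurable hFm)
  have hlim : Tendsto (fun s : Finset (Site d) => ∫⁻ V, ‖F V - CV.PF s (F V)‖ₑ ^ 2 ∂P) atTop
      (𝓝 0) := by
    have h3 := tendsto_lintegral_filter_of_dominated_convergence (μ := P)
      (l := (atTop : Filter (Finset (Site d))))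
      (F := fun s V => ‖F V - CV.PF s (F V)‖ₑ ^ 2) (f := fun _ => 0)
      (fun _ => (ENNReal.ofReal (2 * R)) ^ 2) ?_ ?_ ?_ ?_
    · simpa using h3
    · exact Eventually.of_forall fun s => (hPFm s).enorm.pow_const 2
    · refine Eventually.of_forall fun s => Eventually.of_forall fun V => ?_
      gcongr
      rw [← ofReal_norm]
      refine ENNReal.ofReal_le_ofReal ((norm_sub_le _ _).trans ?_)
      have h4 := hFR V
      have h5 := CV.PF_norm_le s (F V)
      linarith
    · rw [lintegral_const, measure_univ, mul_one]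
      exact ENNReal.pow_ne_top ENNReal.ofReal_ne_top
    · refine Eventually.of_forall fun V => ?_
      have h8 := (tendsto_const_nhds (x := F V)).sub (CV.PF_tendsto (F V))
      rw [sub_self] at h8
      have h9 := h8.enorm
      rw [enorm_zero] at h9
      have h10 := ((ENNReal.continuous_pow 2).tendsto 0).comp h9
      simpa [Function.comp_def] using h10
  have hev := (tendsto_order.1 hlim).2 ((ε / 2) ^ 2) (by positivity)
  obtain ⟨s, hs⟩ := hev.exists
  -- the coordinates
  have hcard : ((s.card : ℝ≥0∞) + 1) ≠ ∞ := by simp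
  have hε' : ε / 2 / ((s.card : ℝ≥0∞) + 1) ≠ 0 := by
    rw [ne_eq, ENNReal.div_eq_zero_iff]
    push Not
    exact ⟨h2, hcard⟩
  have hfm : ∀ z : Site d, MemLp (fun V => (F V) z) 2 P := by
    intro z
    refine MemLp.of_bound (hX.meas z 0).aestronglyMeasurable R (Eventually.of_forall fun V => ?_)
    exact (lp.norm_apply_le_norm (by norm_num) (F V) z).trans (hFR V)
  choose a ha hae using fun z => dens_LC ρ (hfm z) hε'
  choose Rz hRz using fun z => (ha z).bdd
  choose Λz hΛz using fun z => (ha z).loc
  set A : Site d → (Site d → α) → ℂ := fun z V => if z ∈ s then a z V else 0 with hA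
  set R' : ℝ := ∑ z ∈ s, |Rz z| with hR'
  have hAR : ∀ z V, ‖A z V‖ ≤ R' := by
    intro z V
    simp only [hA]
    by_cases hz : z ∈ s
    · rw [if_pos hz]
      exact ((hRz z V).trans (le_abs_self _)).trans
        (Finset.single_le_sum (f := fun z => |Rz z|) (fun _ _ => abs_nonneg _) hz)
    · rw [if_neg hz, norm_zero]
      exact Finset.sum_nonneg fun _ _ => abs_nonneg _
  have hAc : ∀ z, Continuous (A z) := by
    intro z
    simp only [hA]
    by_cases hz : z ∈ s
    · simp only [if_pos hz]
      exact (ha z).cont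
    · simp only [if_neg hz]
      exact continuous_const
  have hAΛ : ∀ z V W, (∀ x ∈ s.biUnion Λz, V x = W x) → A z V = A z W := by
    intro z V W h
    simp only [hA]
    by_cases hz : z ∈ s
    · simp only [if_pos hz]
      exact hΛz z V W fun x hx => h x (Finset.mem_biUnion.2 ⟨z, hz, hx⟩)
    · simp only [if_neg hz]
  refine ⟨vop s A R' hAR, ⟨vop_cv s A R' hAR hAc, fun V r r' => vop_fr s A R' hAR _ hAΛ V r r',
    fun V q hq => vop_cont_update s A R' hAR hAc _ hAΛ V q hq⟩, ?_⟩
  have e : (fun V => X V (dl 0) - vop s A R' hAR V (dl 0)) =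
      (fun V => F V - CV.PF s (F V)) + ∑ z ∈ s, fun V => ((F V) z - a z V) • dl z := by
    funext V
    rw [Pi.add_apply, Finset.sum_apply, vop_dl0, PF_eq]
    have e2 : ∑ z ∈ s, ((F V) z - a z V) • (dl z : L2 (Site d)) =
        ∑ z ∈ s, (F V) z • (dl z : L2 (Site d)) - ∑ z ∈ s, A z V • dl z := by
      rw [← Finset.sum_sub_distrib]
      refine Finset.sum_congr rfl fun z hz => ?_
      simp only [hA]
      rw [if_pos hz, sub_smul]
    rw [e2]
    simp only [hF]
    abel
  rw [e]
  have hterm : ∀ z, StronglyMeasurable fun V => ((F V) z - a z V) • (dl z : L2 (Site d)) :=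
    fun z => ((hX.meas z 0).stronglyMeasurable.sub (ha z).cont.stronglyMeasurable).smul_const _
  refine (eLpNorm_add_le (hPFm s).aestronglyMeasurable
    (Finset.aestronglyMeasurable_sum s fun z _ => (hterm z).aestronglyMeasurable)
    (by norm_num)).trans ?_
  have hb : eLpNorm (∑ z ∈ s, fun V => ((F V) z - a z V) • (dl z : L2 (Site d))) 2 P ≤ ε / 2 := by
    refine (eLpNorm_sum_le (fun z _ => (hterm z).aestronglyMeasurable) (by norm_num)).trans ?_
    have h6 : ∀ z ∈ s, eLpNorm (fun V => ((F V) z - a z V) • (dl z : L2 (Site d))) 2 P ≤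
        ε / 2 / ((s.card : ℝ≥0∞) + 1) := by
      intro z _
      refine le_trans (le_of_eq ?_) (hae z)
      refine eLpNorm_congr_norm_ae (Eventually.of_forall fun V => ?_)
      rw [norm_smul, STAT.norm_dl, mul_one]
    refine (Finset.sum_le_sum h6).trans ?_
    rw [Finset.sum_const, nsmul_eq_mul, ← mul_div_assoc]
    refine ENNReal.div_le_of_le_mul ?_
    rw [mul_comm]
    gcongr
    exact le_self_add
  calc _ ≤ ε / 2 + ε / 2 := add_le_add (n2_le _ _ _ hs.le) hb
    _ = ε := ENNReal.add_halves ε

end Pool.Agent.Helper26.Dj
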