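import Pool.Agent.Helper26.Dj.Ext

/-! # Almost sure absence of limits -/

set_option autoImplicit false
set_option linter.unusedSectionVars false

open MeasureTheory Filter Topology ProbabilityTheory
open scoped BigOperators ENNReal NNReal InnerProductSpace ComplexConjugate

namespace Pool.Agent.Helper26.Dj

open Pool.Agent.H5R2.NB Pool.Agent.Helper26.Nb Pool.Agent.Helper26.Cm

lemma ces {E : Type} [NormedAddCommGroup E] [InnerProductSpace ℂ E] [CompleteSpace E]
    {f : ℝ → E} (hf : Continuous f) {w : E} (h : Tendsto f atTop (𝓝 w)) :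
    Tendsto (fun N : ℕ => ((N : ℂ)⁻¹) • ∫ s in (0 : ℝ)..(N : ℝ), f s) atTop (𝓝 w) := by
  set T : ℝ → Unit → E := fun s _ => f s with hT
  have h1 : Tendsto (fun n : ℕ => LIMA.Y T (n : ℤ) ()) atTop (𝓝 w) := by
    rw [Metric.tendsto_atTop]
    intro ε hε
    obtain ⟨A, hA⟩ := (Metric.tendsto_atTop.1 h) (ε / 2) (by positivity)
    obtain ⟨n₀, hn₀⟩ := exists_nat_ge A
    refine ⟨n₀, fun n hn => ?_⟩
    have hw : w = ∫ _s in (0 : ℝ)..1, w := by simp
    have hc : Continuous fun s : ℝ => f (s + ((n : ℤ) : ℝ)) := hf.comp (by fun_prop)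
    have e : LIMA.Y T (n : ℤ) () - w = ∫ s in (0 : ℝ)..1, (f (s + ((n : ℤ) : ℝ)) - w) := by
      rw [intervalIntegral.integral_sub (hc.intervalIntegrable _ _)
        (continuous_const.intervalIntegrable _ _), ← hw]
      rfl
    rw [dist_eq_norm, e]
    have h2 := intervalIntegral.norm_integral_le_of_norm_le_const (a := (0 : ℝ)) (b := 1)
      (C := ε / 2) (f := fun s => f (s + ((n : ℤ) : ℝ)) - w) (fun s hs => by
        rw [Set.uIoc_of_le zero_le_one] at hs
        rw [← dist_eq_norm]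
        refine (hA _ ?_).le
        have : (n₀ : ℝ) ≤ n := by exact_mod_cast hn
        have h0 := hs.1
        push_cast
        linarith)
    rw [sub_zero, abs_one, mul_one] at h2
    linarith
  have h2 := h1.cesaro_smul
  refine h2.congr fun N => ?_
  have h3 := LM.sum_forward T (fun _ => hf) () N
  rw [show (∫ s in (0 : ℝ)..(N : ℝ), f s) = ∫ s in (0 : ℝ)..(N : ℝ), T s () from rfl, h3]
  have h4 : ((N : ℂ)⁻¹) = (((N : ℝ)⁻¹ : ℝ) : ℂ) := by push_cast; rfl
  rw [h4, Complex.coe_smul]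

variable {d : ℕ} {α : Type} [MeasurableSpace α]
  {W' W : (Site d → α) → UG (L2 (Site d))}
  {X : (Site d → α) → L2 (Site d) →L[ℂ] L2 (Site d)}

theorem as_sub (hW' : CE W') (hW : CE W) (hX : Cv X) (ρ : Measure α) [IsProbabilityMeasure ρ]
    (h : Tendsto (fun N : ℕ => eLpNorm (fun V => gP (W' V) (W V) (X V) N (dl 0)) 2
      (Measure.infinitePi fun _ : Site d => ρ)) atTop (𝓝 0)) :
    ∃ Nk : ℕ → ℕ, Tendsto Nk atTop atTop ∧ ∀ᵐ V ∂(Measure.infinitePi fun _ : Site d => ρ),
      GGood (W' V) (W V) (X V) Nk 0 := by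
  set P : Measure (Site d → α) := Measure.infinitePi fun _ : Site d => ρ with hP
  obtain ⟨Nk, b, hNk, hb, hL2, -, hgood⟩ := vlimG hW' hW hX ρ
  have hc0 : StronglyMeasurable fun _ : Site d → α => (dl 0 : L2 (Site d)) :=
    stronglyMeasurable_const
  refine ⟨Nk, hNk, ?_⟩
  -- the limit vanishes
  have hb0 : eLpNorm b 2 P = 0 := by
    have h1 : Tendsto (fun N : ℕ => eLpNorm (fun V => gP (W' V) (W V) (X V) N (dl 0) - b V) 2 P)
        atTop (𝓝 0) := by
      rw [ENNReal.tendsto_atTop_zero] at hL2 ⊢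
      intro ε hε
      obtain ⟨N, hN⟩ := hL2 (ε ^ 2) (by positivity)
      exact ⟨N, fun n hn => n2_le _ _ _ (hN n hn)⟩
    have h2 := h.add h1
    rw [add_zero] at h2
    refine le_antisymm (ge_of_tendsto' h2 fun N => ?_) bot_le
    have e : b = (fun V => gP (W' V) (W V) (X V) N (dl 0)) -
        fun V => gP (W' V) (W V) (X V) N (dl 0) - b V := by
      funext V
      rw [Pi.sub_apply, sub_sub_cancel]
    have hm := (sm_gP hW' hW hX hc0 N).aestronglyMeasurable (μ := P)
    calc eLpNorm b 2 P = eLpNorm ((fun V => gP (W' V) (W V) (X V) N (dl 0)) -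
        fun V => gP (W' V) (W V) (X V) N (dl 0) - b V) 2 P := by rw [← e]
      _ ≤ _ := eLpNorm_sub_le hm (hm.sub hb) (by norm_num)
  have hb1 : ∀ᵐ V ∂P, b V = 0 := by
    have := (eLpNorm_eq_zero_iff hb (by norm_num)).1 hb0
    filter_upwards [this] with V hV using hV
  have hz : ∀ᵐ V ∂P, ∀ z : Site d, b (sh z V) = 0 ∧ ∃ B : L2 (Site d) →L[ℂ] L2 (Site d),
      GGood (W' (sh z V)) (W (sh z V)) (X (sh z V)) Nk B ∧ B (dl 0) = b (sh z V) := by
    rw [ae_all_iff]
    intro z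
    exact (mp_sh (d := d) ρ z).quasiMeasurePreserving.ae (hb1.and hgood)
  filter_upwards [hz, hgood] with V hV hVg
  obtain ⟨B, hB, -⟩ := hVg
  have hBz : ∀ z : Site d, B (dl z) = 0 := by
    intro z
    obtain ⟨S, hS⟩ := (t_OPS d).1 (-z)
    obtain ⟨h1, B', hB', hB'0⟩ := hV z
    have h3 := (S.continuous.tendsto _).comp (hB' (dl 0)).1
    rw [hB'0, h1, map_zero] at h3
    refine tendsto_nhds_unique (hB (dl z)).1 (h3.congr fun k => ?_)
    rw [gP_sh hW' hW hX hS]
    rfl
  have hB0 : B = 0 := by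
    refine ContinuousLinearMap.ext_on (s := Set.range (dl (d := d))) (fun x => LIMB.dl_dense d x) ?_
    rintro _ ⟨z, rfl⟩
    rw [hBz z]
    rfl
  rwa [hB0] at hB

theorem as_lim (hW' : CE W') (hW : CE W) (hX : Cv X) (ρ : Measure α) [IsProbabilityMeasure ρ]
    (h : Tendsto (fun N : ℕ => eLpNorm (fun V => gP (W' V) (W V) (X V) N (dl 0)) 2
      (Measure.infinitePi fun _ : Site d => ρ)) atTop (𝓝 0)) :
    ∀ᵐ V ∂(Measure.infinitePi fun _ : Site d => ρ), ∀ u w : L2 (Site d),
      (Tendsto (fun t : ℝ => (W' V).U (-t) (X V ((W V).U t u))) atTop (𝓝 w) ∨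
        Tendsto (fun t : ℝ => (W' V).U (-t) (X V ((W V).U t u))) atBot (𝓝 w)) → w = 0 := by
  obtain ⟨Nk, hNk, hV⟩ := as_sub hW' hW hX ρ h
  filter_upwards [hV] with V hV u w huw
  rcases huw with huw | huw
  · have h1 := (ces (cont_gP (W' V) (W V) (X V) u) huw).comp hNk
    exact tendsto_nhds_unique h1 (hV u).1
  · have h2 : Tendsto (fun t : ℝ => (W' V).U t (X V ((W V).U (-t) u))) atTop (𝓝 w) := by
      have h3 := huw.comp tendsto_neg_atTop_atBot
      refine h3.congr fun t => ?_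
      simp only [Function.comp_apply, neg_neg]
    have h1 := (ces (cont_gM (W' V) (W V) (X V) u) h2).comp hNk
    exact tendsto_nhds_unique h1 (hV u).2

end Pool.Agent.Helper26.Dj
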