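import Pool.Agent.Helper26.Dj.Zero
import Pool.Agent.Helper26.Nb.Kay

/-! # From the origin to all random states; real times -/

set_option autoImplicit false
set_option linter.unusedSectionVars false

open MeasureTheory Filter Topology ProbabilityTheory
open scoped BigOperators ENNReal NNReal InnerProductSpace ComplexConjugate

namespace Pool.Agent.Helper26.Dj

open Pool.Agent.H5R2.NB Pool.Agent.Helper26.Nb Pool.Agent.Helper26.Cm

/-- time average over `[0,T]` -/
noncomputable def aT {X : Type} [NormedAddCommGroup X] [InnerProductSpace ℂ X] (W' W : UG X)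
    (v : X →L[ℂ] X) (T : ℝ) (x : X) : X :=
  ((T : ℂ)⁻¹) • ∫ s in (0 : ℝ)..T, W'.U (-s) (v (W.U s x))

lemma aT_le {X : Type} [NormedAddCommGroup X] [InnerProductSpace ℂ X] (W' W : UG X)
    (v : X →L[ℂ] X) (x : X) (T : ℝ) (hT : 1 ≤ T) :
    ‖aT W' W v T x‖ ≤ ‖gP W' W v ⌊T⌋₊ x‖ + ‖v‖ * ‖x‖ / T := by
  have hT0 : 0 < T := by linarith
  set N := ⌊T⌋₊ with hN
  have hN1 : 1 ≤ N := Nat.le_floor (by simpa using hT)
  have hNT : (N : ℝ) ≤ T := Nat.floor_le hT0.le
  have hTN : T < N + 1 := Nat.lt_floor_add_one T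
  have hN0 : (0 : ℝ) < N := by exact_mod_cast hN1
  have hc := cont_gP W' W v x
  have e1 : ∫ s in (0 : ℝ)..T, W'.U (-s) (v (W.U s x)) =
      (∫ s in (0 : ℝ)..(N : ℝ), W'.U (-s) (v (W.U s x))) +
        ∫ s in (N : ℝ)..T, W'.U (-s) (v (W.U s x)) :=
    (intervalIntegral.integral_add_adjacent_intervals (hc.intervalIntegrable _ _)
      (hc.intervalIntegrable _ _)).symm
  have e2 : ∫ s in (0 : ℝ)..(N : ℝ), W'.U (-s) (v (W.U s x)) = (N : ℂ) • gP W' W v N x := by
    unfold gP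
    rw [smul_smul, mul_inv_cancel₀, one_smul]
    exact_mod_cast hN0.ne'
  have e3 : ‖∫ s in (N : ℝ)..T, W'.U (-s) (v (W.U s x))‖ ≤ ‖v‖ * ‖x‖ := by
    have h := intervalIntegral.norm_integral_le_of_norm_le_const (a := (N : ℝ)) (b := T)
      (C := ‖v‖ * ‖x‖)
      (f := fun s => W'.U (-s) (v (W.U s x))) (fun s _ => norm_g W' W v x s (-s))
    rw [abs_of_nonneg (by linarith)] at h
    refine h.trans ?_
    have h0 : 0 ≤ ‖v‖ * ‖x‖ := by positivity
    nlinarith
  unfold aT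
  rw [norm_smul, norm_inv, Complex.norm_real, Real.norm_of_nonneg hT0.le, e1, e2]
  have e4 : ‖(N : ℂ) • gP W' W v N x + ∫ s in (N : ℝ)..T, W'.U (-s) (v (W.U s x))‖ ≤
      T * ‖gP W' W v N x‖ + ‖v‖ * ‖x‖ := by
    refine (norm_add_le _ _).trans (add_le_add ?_ e3)
    rw [norm_smul, Complex.norm_natCast]
    gcongr
  calc T⁻¹ * _ ≤ T⁻¹ * (T * ‖gP W' W v N x‖ + ‖v‖ * ‖x‖) := by gcongr
    _ = _ := by field_simp

variable {d : ℕ} {α : Type} [MeasurableSpace α]
  {W' W : (Site d → α) → UG (L2 (Site d))}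
  {X : (Site d → α) → L2 (Site d) →L[ℂ] L2 (Site d)}

lemma gP_add {E : Type} [NormedAddCommGroup E] [InnerProductSpace ℂ E] (W' W : UG E)
    (v : E →L[ℂ] E) (N : ℕ) (x y : E) :
    gP W' W v N (x + y) = gP W' W v N x + gP W' W v N y := (GPL W' W v N).map_add x y

lemma gP_smul {E : Type} [NormedAddCommGroup E] [InnerProductSpace ℂ E] (W' W : UG E)
    (v : E →L[ℂ] E) (N : ℕ) (a : ℂ) (x : E) :
    gP W' W v N (a • x) = a • gP W' W v N x := (GPL W' W v N).map_smul a x

lemma gP_sum {E : Type} [NormedAddCommGroup E] [InnerProductSpace ℂ E] (W' W : UG E)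
    (v : E →L[ℂ] E) (N : ℕ) {ι : Type} (s : Finset ι) (f : ι → E) :
    gP W' W v N (∑ i ∈ s, f i) = ∑ i ∈ s, gP W' W v N (f i) := map_sum (GPL W' W v N) f s

/-- contraction -/
lemma phi_le {R : ℝ} (hR : ∀ V, ‖X V‖ ≤ R) (P : Measure (Site d → α))
    (F : (Site d → α) → L2 (Site d)) (N : ℕ) :
    eLpNorm (fun V => gP (W' V) (W V) (X V) N (F V)) 2 P ≤ ENNReal.ofReal R * eLpNorm F 2 P := by
  refine eLpNorm_le_mul_eLpNorm_of_ae_le_mul (Eventually.of_forall fun V => ?_) 2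
  refine (norm_gP _ _ _ _ _).trans ?_
  gcongr
  exact hR V

theorem ext_z (hW' : CE W') (hW : CE W) (hX : Cv X) (ρ : Measure α) [IsProbabilityMeasure ρ]
    (h : Tendsto (fun N : ℕ => eLpNorm (fun V => gP (W' V) (W V) (X V) N (dl 0)) 2
      (Measure.infinitePi fun _ : Site d => ρ)) atTop (𝓝 0)) (z : Site d) :
    Tendsto (fun N : ℕ => eLpNorm (fun V => gP (W' V) (W V) (X V) N (dl z)) 2
      (Measure.infinitePi fun _ : Site d => ρ)) atTop (𝓝 0) := by
  refine h.congr fun N => ?_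
  obtain ⟨S, hS⟩ := (t_OPS d).1 (-z)
  have hc0 : StronglyMeasurable fun _ : Site d → α => (dl 0 : L2 (Site d)) :=
    stronglyMeasurable_const
  have h1 := eLpNorm_comp_measurePreserving (p := 2)
    (sm_gP hW' hW hX hc0 N).aestronglyMeasurable (mp_sh (d := d) ρ z)
  rw [← h1]
  refine eLpNorm_congr_norm_ae (Eventually.of_forall fun V => ?_)
  rw [gP_sh hW' hW hX hS, shift_norm hS]
  rfl

theorem ext_x (hW' : CE W') (hW : CE W) (hX : Cv X) (ρ : Measure α) [IsProbabilityMeasure ρ]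
    (h : Tendsto (fun N : ℕ => eLpNorm (fun V => gP (W' V) (W V) (X V) N (dl 0)) 2
      (Measure.infinitePi fun _ : Site d => ρ)) atTop (𝓝 0)) (x : L2 (Site d)) :
    Tendsto (fun N : ℕ => eLpNorm (fun V => gP (W' V) (W V) (X V) N x) 2
      (Measure.infinitePi fun _ : Site d => ρ)) atTop (𝓝 0) := by
  set P : Measure (Site d → α) := Measure.infinitePi fun _ : Site d => ρ with hP
  obtain ⟨R, hR⟩ := hX.bdd
  have hz := ext_z hW' hW hX ρ h
  rw [ENNReal.tendsto_nhds_zero]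
  intro ε hε
  have h2 : (0 : ℝ≥0∞) < ε / 2 := by simp [hε.ne']
  -- a finite part
  have hlim : Tendsto (fun s : Finset (Site d) => ENNReal.ofReal R * ‖x - CV.PF s x‖ₑ) atTop
      (𝓝 0) := by
    have h8 := (tendsto_const_nhds (x := x)).sub (CV.PF_tendsto x)
    rw [sub_self] at h8
    have h9 := h8.enorm
    rw [enorm_zero] at h9
    have h10 := ENNReal.Tendsto.const_mul (a := ENNReal.ofReal R) h9
      (Or.inr ENNReal.ofReal_ne_top)
    rwa [mul_zero] at h10
  obtain ⟨s, hs⟩ := ((tendsto_order.1 hlim).2 _ h2).exists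
  have hsum : Tendsto (fun N : ℕ => ∑ z ∈ s, ‖x z‖ₑ *
      eLpNorm (fun V => gP (W' V) (W V) (X V) N (dl z)) 2 P) atTop (𝓝 0) := by
    have h3 : Tendsto (fun N : ℕ => ∑ z ∈ s, ‖x z‖ₑ *
      eLpNorm (fun V => gP (W' V) (W V) (X V) N (dl z)) 2 P) atTop
        (𝓝 (∑ z ∈ s, ‖x z‖ₑ * 0)) :=
      tendsto_finsetSum s fun z _ => ENNReal.Tendsto.const_mul (hz z) (Or.inr enorm_ne_top)
    simpa using h3
  filter_upwards [(tendsto_order.1 hsum).2 _ h2] with N hN
  have hc : ∀ y : L2 (Site d), StronglyMeasurable fun _ : Site d → α => y :=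
    fun y => stronglyMeasurable_const
  have e : (fun V => gP (W' V) (W V) (X V) N x) =
      (fun V => gP (W' V) (W V) (X V) N (x - CV.PF s x)) +
        ∑ z ∈ s, fun V => x z • gP (W' V) (W V) (X V) N (dl z) := by
    funext V
    rw [Pi.add_apply, Finset.sum_apply]
    have e1 : gP (W' V) (W V) (X V) N (CV.PF s x) =
        ∑ z ∈ s, x z • gP (W' V) (W V) (X V) N (dl z) := by
      rw [PF_eq, gP_sum]
      refine Finset.sum_congr rfl fun z _ => gP_smul _ _ _ _ _ _
    rw [← e1, ← gP_add, sub_add_cancel]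
  rw [e]
  have hterm : ∀ z, StronglyMeasurable fun V => x z • gP (W' V) (W V) (X V) N (dl z) :=
    fun z => (sm_gP hW' hW hX (hc (dl z)) N).const_smul (x z)
  refine (eLpNorm_add_le (sm_gP hW' hW hX (hc _) N).aestronglyMeasurable
    (Finset.aestronglyMeasurable_sum s fun z _ => (hterm z).aestronglyMeasurable)
    (by norm_num)).trans ?_
  have h5 : eLpNorm (fun V => gP (W' V) (W V) (X V) N (x - CV.PF s x)) 2 P ≤ ε / 2 := by
    refine (phi_le hR P (fun _ => x - CV.PF s x) N).trans ?_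
    rw [eLpNorm_const _ (by norm_num) (NeZero.ne _), measure_univ]
    simp only [ENNReal.one_rpow, mul_one]
    exact hs.le
  have h6 : eLpNorm (∑ z ∈ s, fun V => x z • gP (W' V) (W V) (X V) N (dl z)) 2 P ≤ ε / 2 := by
    refine (eLpNorm_sum_le (fun z _ => (hterm z).aestronglyMeasurable) (by norm_num)).trans ?_
    refine le_trans (Finset.sum_le_sum fun z _ => ?_) hN.le
    have h9 := eLpNorm_const_smul (x z) (fun V => gP (W' V) (W V) (X V) N (dl z)) 2 P
    exact h9.le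
  calc _ ≤ ε / 2 + ε / 2 := add_le_add h5 h6
    _ = ε := ENNReal.add_halves ε

/-- random states -/
theorem ext_psi (hW' : CE W') (hW : CE W) (hX : Cv X) (ρ : Measure α) [IsProbabilityMeasure ρ]
    (h : Tendsto (fun N : ℕ => eLpNorm (fun V => gP (W' V) (W V) (X V) N (dl 0)) 2
      (Measure.infinitePi fun _ : Site d => ρ)) atTop (𝓝 0))
    {ψ : (Site d → α) → L2 (Site d)} (hψ : StronglyMeasurable ψ)
    (hψ2 : MemLp ψ 2 (Measure.infinitePi fun _ : Site d => ρ)) :
    Tendsto (fun N : ℕ => eLpNorm (fun V => gP (W' V) (W V) (X V) N (ψ V)) 2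
      (Measure.infinitePi fun _ : Site d => ρ)) atTop (𝓝 0) := by
  set P : Measure (Site d → α) := Measure.infinitePi fun _ : Site d => ρ with hP
  obtain ⟨R, hR⟩ := hX.bdd
  have hx := ext_x hW' hW hX ρ h
  rw [ENNReal.tendsto_nhds_zero]
  intro ε hε
  have h2 : (0 : ℝ≥0∞) < ε / 2 := by simp [hε.ne']
  have h2R : ε / 2 / (ENNReal.ofReal R + 1) ≠ 0 := by
    rw [ne_eq, ENNReal.div_eq_zero_iff]
    push Not
    exact ⟨h2.ne', by simp⟩
  obtain ⟨g, hg, -⟩ := hψ2.exists_simpleFunc_eLpNorm_sub_lt (by norm_num) h2R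
  have hsum : Tendsto (fun N : ℕ => ∑ x ∈ g.range,
      eLpNorm (fun V => gP (W' V) (W V) (X V) N x) 2 P) atTop (𝓝 0) := by
    have h3 : Tendsto (fun N : ℕ => ∑ x ∈ g.range,
      eLpNorm (fun V => gP (W' V) (W V) (X V) N x) 2 P) atTop (𝓝 (∑ x ∈ g.range, 0)) :=
      tendsto_finsetSum _ fun x _ => hx x
    simpa using h3
  filter_upwards [(tendsto_order.1 hsum).2 _ h2] with N hN
  have hc : ∀ y : L2 (Site d), StronglyMeasurable fun _ : Site d → α => y :=
    fun y => stronglyMeasurable_const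
  have e : (fun V => gP (W' V) (W V) (X V) N (ψ V)) =
      (fun V => gP (W' V) (W V) (X V) N ((ψ - ⇑g) V)) +
        fun V => gP (W' V) (W V) (X V) N (g V) := by
    funext V
    rw [Pi.add_apply, ← gP_add, Pi.sub_apply, sub_add_cancel]
  rw [e]
  refine (eLpNorm_add_le (sm_gP hW' hW hX (hψ.sub g.stronglyMeasurable) N).aestronglyMeasurable
    (sm_gP hW' hW hX g.stronglyMeasurable N).aestronglyMeasurable (by norm_num)).trans ?_
  have h5 : eLpNorm (fun V => gP (W' V) (W V) (X V) N ((ψ - ⇑g) V)) 2 P ≤ ε / 2 := by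
    refine (phi_le hR P (ψ - ⇑g) N).trans ?_
    calc ENNReal.ofReal R * eLpNorm (ψ - ⇑g) 2 P ≤
        (ENNReal.ofReal R + 1) * (ε / 2 / (ENNReal.ofReal R + 1)) :=
          mul_le_mul' le_self_add hg.le
      _ ≤ ε / 2 := ENNReal.mul_div_le
  have h6 : eLpNorm (fun V => gP (W' V) (W V) (X V) N (g V)) 2 P ≤ ε / 2 := by
    have h7 : eLpNorm (fun V => gP (W' V) (W V) (X V) N (g V)) 2 P ≤
        eLpNorm (∑ x ∈ g.range, fun V => ‖gP (W' V) (W V) (X V) N x‖) 2 P := by
      refine eLpNorm_mono_real fun V => ?_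
      rw [Finset.sum_apply]
      exact Finset.single_le_sum (f := fun x => ‖gP (W' V) (W V) (X V) N x‖)
        (fun _ _ => norm_nonneg _) (g.mem_range_self V)
    refine h7.trans ((eLpNorm_sum_le (fun x _ =>
      (sm_gP hW' hW hX (hc x) N).norm.aestronglyMeasurable) (by norm_num)).trans ?_)
    refine le_trans (Finset.sum_le_sum fun x _ => ?_) hN.le
    exact (eLpNorm_norm _).le
  calc _ ≤ ε / 2 + ε / 2 := add_le_add h5 h6
    _ = ε := ENNReal.add_halves ε

/-- real times -/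
theorem ext_T (hW' : CE W') (hW : CE W) (hX : Cv X) (ρ : Measure α) [IsProbabilityMeasure ρ]
    (h : Tendsto (fun N : ℕ => eLpNorm (fun V => gP (W' V) (W V) (X V) N (dl 0)) 2
      (Measure.infinitePi fun _ : Site d => ρ)) atTop (𝓝 0))
    {ψ : (Site d → α) → L2 (Site d)} (hψ : StronglyMeasurable ψ)
    (hψ2 : MemLp ψ 2 (Measure.infinitePi fun _ : Site d => ρ)) :
    Tendsto (fun T : ℝ => ∫⁻ V, ‖aT (W' V) (W V) (X V) T (ψ V)‖ₑ ^ 2
      ∂(Measure.infinitePi fun _ : Site d => ρ)) atTop (𝓝 0) := by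
  set P : Measure (Site d → α) := Measure.infinitePi fun _ : Site d => ρ with hP
  obtain ⟨R, hR⟩ := hX.bdd
  have h1 := ext_psi hW' hW hX ρ h hψ hψ2
  have h3 : Tendsto (fun T : ℝ => eLpNorm (fun V => gP (W' V) (W V) (X V) ⌊T⌋₊ (ψ V)) 2 P +
      ENNReal.ofReal (R / T) * eLpNorm ψ 2 P) atTop (𝓝 0) := by
    have h4 : Tendsto (fun T : ℝ => ENNReal.ofReal (R / T)) atTop (𝓝 0) := by
      have := ENNReal.tendsto_ofReal ((tendsto_inv_atTop_zero (𝕜 := ℝ)).const_mul R)
      simpa [div_eq_mul_inv] using this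
    have h5 : Tendsto (fun T : ℝ => ENNReal.ofReal (R / T) * eLpNorm ψ 2 P) atTop (𝓝 0) := by
      have := ENNReal.Tendsto.mul_const (b := eLpNorm ψ 2 P) h4 (Or.inr hψ2.2.ne)
      rwa [zero_mul] at this
    have := (h1.comp tendsto_nat_floor_atTop).add h5
    simpa using this
  have h4 : Tendsto (fun T : ℝ => eLpNorm (fun V => aT (W' V) (W V) (X V) T (ψ V)) 2 P) atTop
      (𝓝 0) := by
    refine tendsto_of_tendsto_of_tendsto_of_le_of_le' tendsto_const_nhds h3
      (Eventually.of_forall fun _ => zero_le) ?_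
    filter_upwards [eventually_ge_atTop (1 : ℝ)] with T hT
    have hT0 : 0 < T := by linarith
    have h5 : eLpNorm (fun V => aT (W' V) (W V) (X V) T (ψ V)) 2 P ≤
        eLpNorm ((fun V => ‖gP (W' V) (W V) (X V) ⌊T⌋₊ (ψ V)‖) + fun V => (R / T) * ‖ψ V‖) 2
          P := by
      refine eLpNorm_mono_real fun V => ?_
      refine (aT_le (W' V) (W V) (X V) (ψ V) T hT).trans ?_
      rw [Pi.add_apply]
      gcongr
      rw [div_mul_eq_mul_div]
      gcongr
      exact hR V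
    refine h5.trans ((eLpNorm_add_le (sm_gP hW' hW hX hψ _).norm.aestronglyMeasurable
      ((hψ.norm.const_mul _).aestronglyMeasurable) (by norm_num)).trans ?_)
    refine add_le_add ?_ ?_
    · exact (eLpNorm_norm _).le
    · refine eLpNorm_le_mul_eLpNorm_of_ae_le_mul (Eventually.of_forall fun V => ?_) 2
      have hR0 : 0 ≤ R := (norm_nonneg _).trans (hR V)
      rw [norm_mul, norm_norm, Real.norm_of_nonneg (by positivity)]
  have h5 := ((ENNReal.continuous_pow 2).tendsto 0).comp h4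
  simp only [Function.comp_def, n2_sq] at h5
  simpa using h5

end Pool.Agent.Helper26.Dj
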