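import Pool.Agent.Helper26.Cm.Tr

/-! # Mean square convergence of time averages, measurable version -/

set_option autoImplicit false
set_option linter.unusedSectionVars false

open MeasureTheory Filter Topology
open scoped BigOperators ENNReal NNReal InnerProductSpace ComplexConjugate

namespace Pool.Agent.Helper26.Dj

open Pool.Agent.H5R2.NB Pool.Agent.Helper26.Nb Pool.Agent.Helper26.Cm

namespace LM

variable {Ω : Type} [MeasurableSpace Ω] {X : Type} [NormedAddCommGroup X] [InnerProductSpace ℂ X]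
  [CompleteSpace X] (P : Measure Ω) [IsProbabilityMeasure P] (T : ℝ → Ω → X) (K : ℝ)

theorem jm (hc : ∀ V, Continuous fun s => T s V) (hm : ∀ s, StronglyMeasurable (T s)) :
    StronglyMeasurable (Function.uncurry T) :=
  stronglyMeasurable_uncurry_of_continuous_of_stronglyMeasurable hc hm

theorem sm_Y (hc : ∀ V, Continuous fun s => T s V) (hm : ∀ s, StronglyMeasurable (T s)) (n : ℤ) :
    StronglyMeasurable (LIMA.Y T n) := by
  have h1 : StronglyMeasurable (Function.uncurry fun (V : Ω) (s : ℝ) => T (s + n) V) := by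
    have h2 : (Function.uncurry fun (V : Ω) (s : ℝ) => T (s + n) V) =
        (Function.uncurry T) ∘ fun q : Ω × ℝ => (q.2 + n, q.1) := by
      funext q
      rfl
    rw [h2]
    exact (jm T hc hm).comp_measurable (by fun_prop)
  have h3 : StronglyMeasurable fun V => ∫ s in Set.Ioc (0 : ℝ) 1, T (s + n) V :=
    h1.integral_prod_right
  have h4 : LIMA.Y T n = fun V => ∫ s in Set.Ioc (0 : ℝ) 1, T (s + n) V := by
    funext V
    unfold LIMA.Y
    rw [intervalIntegral.integral_of_le zero_le_one]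
  rw [h4]
  exact h3

theorem norm_Y (hK : ∀ s V, ‖T s V‖ ≤ K) (n : ℤ) (V : Ω) : ‖LIMA.Y T n V‖ ≤ K := by
  unfold LIMA.Y
  have := intervalIntegral.norm_integral_le_of_norm_le_const (a := (0 : ℝ)) (b := 1)
    (f := fun s => T (s + n) V) (C := K) (fun s _ => hK _ _)
  simpa using this

theorem sum_toLp (y : ℕ → Ω → X) (hy : ∀ n, MemLp (y n) 2 P) (N : ℕ) :
    ∃ h : MemLp (fun V => ((N : ℂ)⁻¹) • ∑ n ∈ Finset.range N, y n V) 2 P,
      ((N : ℂ)⁻¹) • ∑ n ∈ Finset.range N, (hy n).toLp = h.toLp := by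
  have h1 : ∀ M : ℕ, ∃ h : MemLp (fun V => ∑ n ∈ Finset.range M, y n V) 2 P,
      ∑ n ∈ Finset.range M, (hy n).toLp = h.toLp := by
    intro M
    induction M with
    | zero =>
      have h0 : MemLp (fun V => ∑ n ∈ Finset.range 0, y n V) 2 P := by simp
      have h00 : MemLp (0 : Ω → X) 2 P := MemLp.zero
      refine ⟨h0, ?_⟩
      rw [Finset.sum_range_zero, ← MemLp.toLp_zero h00, MemLp.toLp_eq_toLp_iff]
      exact Eventually.of_forall fun V => by simp
    | succ M ih =>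
      obtain ⟨h, he⟩ := ih
      have h2 : (fun V => ∑ n ∈ Finset.range (M + 1), y n V) =
          (fun V => ∑ n ∈ Finset.range M, y n V) + y M := by
        funext V
        rw [Finset.sum_range_succ]
        rfl
      have h3 : MemLp (fun V => ∑ n ∈ Finset.range (M + 1), y n V) 2 P := by
        rw [h2]
        exact h.add (hy M)
      refine ⟨h3, ?_⟩
      rw [Finset.sum_range_succ, he, ← MemLp.toLp_add]
      congr 1
      exact h2.symm
  obtain ⟨h, he⟩ := h1 N
  refine ⟨h.const_smul _, ?_⟩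
  rw [he, ← MemLp.toLp_const_smul]
  rfl

theorem conv (f : ℕ → Ω → X) (hf : ∀ N, MemLp (f N) 2 P) (b : Lp X 2 P)
    (h : Tendsto (fun N => (hf N).toLp (f N)) atTop (𝓝 b)) :
    Tendsto (fun N : ℕ => ∫⁻ V, ‖f N V - b V‖ₑ ^ 2 ∂P) atTop (𝓝 0) := by
  have h1 : (Lp.memLp b).toLp b = b := Lp.toLp_coeFn b (Lp.memLp b)
  rw [← h1, Lp.tendsto_Lp_iff_tendsto_eLpNorm''] at h
  have h2 : ∀ N, ∫⁻ V, ‖f N V - b V‖ₑ ^ 2 ∂P = eLpNorm (f N - (⇑b : Ω → X)) 2 P ^ 2 := by
    intro N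
    rw [n2_sq]
    rfl
  simp only [h2]
  have h6 := (ENNReal.continuous_pow 2).tendsto 0
  have h7 := h6.comp h
  rw [zero_pow two_ne_zero] at h7
  exact h7

theorem memLp_Y (hc : ∀ V, Continuous fun s => T s V) (hm : ∀ s, StronglyMeasurable (T s))
    (hK : ∀ s V, ‖T s V‖ ≤ K) (n : ℤ) : MemLp (LIMA.Y T n) 2 P :=
  MemLp.of_bound (sm_Y T hc hm n).aestronglyMeasurable K
    (Eventually.of_forall (norm_Y T K hK n))

theorem inner_Y (hc : ∀ V, Continuous fun s => T s V) (hm : ∀ s, StronglyMeasurable (T s))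
    (hK : ∀ s V, ‖T s V‖ ≤ K)
    (m n : ℤ) : ∫ V, ⟪LIMA.Y T m V, LIMA.Y T n V⟫_ℂ ∂P =
      ∫ s in (0 : ℝ)..1, ∫ s' in (0 : ℝ)..1, ∫ V, ⟪T (s + m) V, T (s' + n) V⟫_ℂ ∂P := by
  have hJ := jm T hc hm
  have e1 : ∀ V, ⟪LIMA.Y T m V, LIMA.Y T n V⟫_ℂ =
      ∫ s in (0 : ℝ)..1, ∫ s' in (0 : ℝ)..1, ⟪T (s + m) V, T (s' + n) V⟫_ℂ := by
    intro V
    have h1 : ∀ x : X, ∫ s' in (0 : ℝ)..1, ⟪x, T (s' + n) V⟫_ℂ = ⟪x, LIMA.Y T n V⟫_ℂ := by
      intro x
      unfold LIMA.Y
      rw [intervalIntegral.integral_of_le zero_le_one, intervalIntegral.integral_of_le zero_le_one]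
      apply integral_inner
      have h : Continuous fun s : ℝ => T (s + n) V :=
        (hc V).comp (by fun_prop : Continuous fun s : ℝ => s + (n : ℝ))
      exact (h.intervalIntegrable 0 1).1
    have h2 : ∀ y : X, ∫ s in (0 : ℝ)..1, ⟪T (s + m) V, y⟫_ℂ = ⟪LIMA.Y T m V, y⟫_ℂ := by
      intro y
      have h3 : ∀ s, ⟪T (s + m) V, y⟫_ℂ = conj (⟪y, T (s + m) V⟫_ℂ) := fun s =>
        (inner_conj_symm _ _).symm
      simp only [h3]
      rw [← inner_conj_symm (LIMA.Y T m V) y]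
      unfold LIMA.Y
      rw [intervalIntegral.integral_of_le zero_le_one, intervalIntegral.integral_of_le zero_le_one,
        integral_conj]
      congr 1
      apply integral_inner
      have h : Continuous fun s : ℝ => T (s + m) V :=
        (hc V).comp (by fun_prop : Continuous fun s : ℝ => s + (m : ℝ))
      exact (h.intervalIntegrable 0 1).1
    simp only [h1, h2]
  have hfin : IsFiniteMeasure (volume.restrict (Set.Ioc (0 : ℝ) 1)) := ⟨by simp⟩
  have hb : ∀ (s s' : ℝ) (V : Ω), ‖⟪T s V, T s' V⟫_ℂ‖ ≤ K * K := by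
    intro s s' V
    refine le_trans (norm_inner_le_norm _ _) ?_
    have h0 := norm_nonneg (T s V)
    have h0' := norm_nonneg (T s' V)
    exact mul_le_mul (hK _ _) (hK _ _) h0' (h0.trans (hK _ _))
  have hphi : StronglyMeasurable fun p : (Ω × ℝ) × ℝ =>
      ⟪T (p.1.2 + m) p.1.1, T (p.2 + n) p.1.1⟫_ℂ := by
    have a1 : StronglyMeasurable fun p : (Ω × ℝ) × ℝ => T (p.1.2 + m) p.1.1 :=
      hJ.comp_measurable (g := fun p : (Ω × ℝ) × ℝ => (p.1.2 + (m : ℝ), p.1.1)) (by fun_prop)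
    have a2 : StronglyMeasurable fun p : (Ω × ℝ) × ℝ => T (p.2 + n) p.1.1 :=
      hJ.comp_measurable (g := fun p : (Ω × ℝ) × ℝ => (p.2 + (n : ℝ), p.1.1)) (by fun_prop)
    exact a1.inner a2
  simp only [e1]
  rw [intervalIntegral.integral_of_le zero_le_one]
  simp only [intervalIntegral.integral_of_le zero_le_one]
  rw [integral_integral_swap]
  · apply integral_congr_ae
    refine Eventually.of_forall fun s => ?_
    simp only
    rw [integral_integral_swap]
    apply Integrable.of_bound (C := K * K)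
    · have h5 : (Function.uncurry fun (V : Ω) (s' : ℝ) => ⟪T (s + m) V, T (s' + n) V⟫_ℂ) =
          (fun p : (Ω × ℝ) × ℝ => ⟪T (p.1.2 + m) p.1.1, T (p.2 + n) p.1.1⟫_ℂ) ∘
            (fun q : Ω × ℝ => ((q.1, s), q.2)) := by
        funext q
        rfl
      rw [h5]
      exact (hphi.comp_measurable (by fun_prop)).aestronglyMeasurable
    · exact Eventually.of_forall fun q => hb _ _ _
  · apply Integrable.of_bound (C := K * K)
    · have h4 : StronglyMeasurable fun q : Ω × ℝ => ∫ s' in Set.Ioc (0 : ℝ) 1,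
          ⟪T (q.2 + m) q.1, T (s' + n) q.1⟫_ℂ := hphi.integral_prod_right
      exact h4.aestronglyMeasurable
    · refine Eventually.of_forall fun q => ?_
      have h5 := intervalIntegral.norm_integral_le_of_norm_le_const (a := (0 : ℝ)) (b := 1)
        (f := fun s' => ⟪T (q.2 + m) q.1, T (s' + n) q.1⟫_ℂ) (C := K * K) (fun s _ => hb _ _ _)
      rw [intervalIntegral.integral_of_le zero_le_one] at h5
      have h6 : ‖∫ s' in Set.Ioc (0 : ℝ) 1, ⟪T (q.2 + m) q.1, T (s' + n) q.1⟫_ℂ‖ ≤ K * K := by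
        simpa using h5
      exact h6

theorem inner_stat (hc : ∀ V, Continuous fun s => T s V) (hm : ∀ s, StronglyMeasurable (T s))
    (hK : ∀ s V, ‖T s V‖ ≤ K)
    (hS : ∀ s s' a : ℝ, ∫ V, ⟪T (s + a) V, T (s' + a) V⟫_ℂ ∂P = ∫ V, ⟪T s V, T s' V⟫_ℂ ∂P)
    (m n : ℤ) : ∫ V, ⟪LIMA.Y T (m + 1) V, LIMA.Y T (n + 1) V⟫_ℂ ∂P =
      ∫ V, ⟪LIMA.Y T m V, LIMA.Y T n V⟫_ℂ ∂P := by
  rw [inner_Y P T K hc hm hK, inner_Y P T K hc hm hK]
  congr 1
  funext s
  congr 1
  funext s'
  rw [← hS (s + m) (s' + n) 1]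
  push_cast
  simp only [add_assoc]

theorem sum_forward (hc : ∀ V, Continuous fun s => T s V) (V : Ω) (N : ℕ) :
    ∫ s in (0 : ℝ)..(N : ℝ), T s V = ∑ n ∈ Finset.range N, LIMA.Y T (n : ℤ) V := by
  induction N with
  | zero => simp
  | succ N ih =>
    rw [Finset.sum_range_succ, ← ih]
    have h1 : LIMA.Y T (N : ℤ) V = ∫ s in (N : ℝ)..((N + 1 : ℕ) : ℝ), T s V := by
      unfold LIMA.Y
      have h := intervalIntegral.integral_comp_add_right (a := (0 : ℝ)) (b := 1)
        (fun s => T s V) (N : ℝ)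
      push_cast
      rw [h, zero_add, add_comm (1 : ℝ)]
    rw [h1]
    exact (intervalIntegral.integral_add_adjacent_intervals ((hc V).intervalIntegrable _ _)
      ((hc V).intervalIntegrable _ _)).symm

theorem sum_backward (hc : ∀ V, Continuous fun s => T s V) (V : Ω) (N : ℕ) :
    ∫ s in (0 : ℝ)..(N : ℝ), T (-s) V = ∑ n ∈ Finset.range N, LIMA.Y T (-(n : ℤ) - 1) V := by
  have hc' : Continuous fun s : ℝ => T (-s) V :=
    (hc V).comp (by fun_prop : Continuous fun s : ℝ => -s)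
  induction N with
  | zero => simp
  | succ N ih =>
    rw [Finset.sum_range_succ, ← ih]
    have h1 : LIMA.Y T (-(N : ℤ) - 1) V = ∫ s in (N : ℝ)..((N + 1 : ℕ) : ℝ), T (-s) V := by
      unfold LIMA.Y
      have h := intervalIntegral.integral_comp_add_right (a := (0 : ℝ)) (b := 1)
        (fun s => T s V) (-(N : ℝ) - 1)
      have h' := intervalIntegral.integral_comp_neg (a := (N : ℝ)) (b := ((N + 1 : ℕ) : ℝ))
        (fun s => T s V)
      rw [h']
      push_cast
      rw [h]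
      congr 1 <;> ring
    rw [h1]
    exact (intervalIntegral.integral_add_adjacent_intervals (hc'.intervalIntegrable _ _)
      (hc'.intervalIntegrable _ _)).symm

theorem main (hc : ∀ V, Continuous fun s => T s V) (hm : ∀ s, StronglyMeasurable (T s))
    (hK : ∀ s V, ‖T s V‖ ≤ K)
    (hS : ∀ s s' a : ℝ, ∫ V, ⟪T (s + a) V, T (s' + a) V⟫_ℂ ∂P = ∫ V, ⟪T s V, T s' V⟫_ℂ ∂P) :
    ∃ b : Ω → X, AEStronglyMeasurable b P ∧
      Tendsto (fun N : ℕ => ∫⁻ V, ‖((N : ℂ)⁻¹) • (∫ s in (0 : ℝ)..(N : ℝ), T s V) - b V‖ₑ ^ 2 ∂P)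
        atTop (𝓝 0) ∧
      Tendsto (fun N : ℕ => ∫⁻ V, ‖((N : ℂ)⁻¹) • (∫ s in (0 : ℝ)..(N : ℝ), T (-s) V) - b V‖ₑ ^ 2
        ∂P) atTop (𝓝 0) := by
  have hmem : ∀ n : ℤ, MemLp (LIMA.Y T n) 2 P := memLp_Y P T K hc hm hK
  obtain ⟨y, h1, h2⟩ := t_ME (Lp X 2 P) (fun n => (hmem n).toLp) (by
    intro m n
    have e : ∀ m n : ℤ, ⟪(hmem m).toLp, (hmem n).toLp⟫_ℂ =
        ∫ V, ⟪LIMA.Y T m V, LIMA.Y T n V⟫_ℂ ∂P := by
      intro m n
      rw [L2.inner_def]
      apply integral_congr_ae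
      filter_upwards [(hmem m).coeFn_toLp, (hmem n).coeFn_toLp] with V h3 h4
      rw [h3, h4]
    rw [e, e]
    exact inner_stat P T K hc hm hK hS m n)
  refine ⟨y, (Lp.aestronglyMeasurable y), ?_, ?_⟩
  · have h3 := sum_toLp P (fun n : ℕ => LIMA.Y T (n : ℤ)) (fun n => hmem n)
    choose h4 h5 using h3
    have h6 := conv P _ h4 y (by
      refine h1.congr fun N => ?_
      exact h5 N)
    simp only [sum_forward T hc]
    exact h6
  · have h3 := sum_toLp P (fun n : ℕ => LIMA.Y T (-(n : ℤ) - 1)) (fun n => hmem _)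
    choose h4 h5 using h3
    have h6 := conv P _ h4 y (by
      refine h2.congr fun N => ?_
      exact h5 N)
    simp only [sum_backward T hc]
    exact h6

end LM

end Pool.Agent.Helper26.Dj
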