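import Pool.Agent.Helper26.Dj.Asl

/-! # Almost sure covariance -/

set_option autoImplicit false
set_option linter.unusedSectionVars false

open MeasureTheory Filter Topology ProbabilityTheory
open scoped BigOperators ENNReal NNReal InnerProductSpace ComplexConjugate

namespace Pool.Agent.Helper26.Dj

open Pool.Agent.H5R2.NB Pool.Agent.Helper26.Nb Pool.Agent.Helper26.Cm

variable {d : ℕ} {α : Type} [MeasurableSpace α]

lemma sh_sh (z z' : Site d) (V : Site d → α) : sh z (sh z' V) = sh (z + z') V := by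
  funext y
  simp only [sh]
  congr 1
  abel

lemma sh_zero (V : Site d → α) : sh 0 V = V := by
  funext y
  simp [sh]

/-- a shift invariant measurable set of full measure on which a given property holds -/
theorem inv_set (ρ : Measure α) [IsProbabilityMeasure ρ] {p : (Site d → α) → Prop}
    (h : ∀ᵐ V ∂(Measure.infinitePi fun _ : Site d => ρ), p V) :
    ∃ G : Set (Site d → α), MeasurableSet G ∧ (∀ V ∈ G, p V) ∧
      (∀ z V, sh z V ∈ G ↔ V ∈ G) ∧
      ∀ᵐ V ∂(Measure.infinitePi fun _ : Site d => ρ), V ∈ G := by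
  obtain ⟨N, hsub, hNm, hN0⟩ := exists_measurable_superset_of_null (ae_iff.1 h)
  refine ⟨⋂ z : Site d, sh z ⁻¹' Nᶜ, MeasurableSet.iInter fun z => (meas_sh z) hNm.compl,
    fun V hV => ?_, fun z V => ?_, ?_⟩
  · have h1 := Set.mem_iInter.1 hV 0
    rw [Set.mem_preimage, sh_zero] at h1
    by_contra h2
    exact h1 (hsub h2)
  · simp only [Set.mem_iInter, Set.mem_preimage, sh_sh]
    constructor
    · intro h1 z'
      have := h1 (z' - z)
      rwa [sub_add_cancel] at this
    · intro h1 z'
      exact h1 _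
  · have h1 : ∀ᵐ V ∂(Measure.infinitePi fun _ : Site d => ρ), V ∉ N :=
      measure_eq_zero_iff_ae_notMem.1 hN0
    have h2 : ∀ᵐ V ∂(Measure.infinitePi fun _ : Site d => ρ), ∀ z, sh z V ∉ N := by
      rw [ae_all_iff]
      intro z
      exact (mp_sh (d := d) ρ z).quasiMeasurePreserving.ae h1
    filter_upwards [h2] with V hV
    exact Set.mem_iInter.2 fun z => hV z

open Classical in
/-- modification of a family outside an invariant set -/
theorem cv_mod {X : (Site d → α) → L2 (Site d) →L[ℂ] L2 (Site d)} {G : Set (Site d → α)}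
    (hG : MeasurableSet G) (hinv : ∀ z V, sh z V ∈ G ↔ V ∈ G)
    (hcov : ∀ V ∈ G, ∀ (z : Site d) (S : L2 (Site d) →L[ℂ] L2 (Site d)), IsShift z S →
      ∀ ψ, X (sh z V) (S ψ) = S (X V ψ))
    (hmeas : ∀ x y, Measurable fun V => (X V (dl y)) x) (hbdd : ∃ R, ∀ V, ‖X V‖ ≤ R)
    (X₀ : L2 (Site d) →L[ℂ] L2 (Site d))
    (h₀ : ∀ (z : Site d) (S : L2 (Site d) →L[ℂ] L2 (Site d)), IsShift z S →
      ∀ ψ, X₀ (S ψ) = S (X₀ ψ)) :
    Cv fun V => if V ∈ G then X V else X₀ := by
  refine ⟨fun z S hS V ψ => ?_, fun x y => ?_, ?_⟩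
  · by_cases hV : V ∈ G
    · rw [if_pos hV, if_pos ((hinv z V).2 hV)]
      exact hcov V hV z S hS ψ
    · rw [if_neg hV, if_neg (fun h => hV ((hinv z V).1 h))]
      exact h₀ z S hS ψ
  · have e : (fun V => ((if V ∈ G then X V else X₀ : L2 (Site d) →L[ℂ] L2 (Site d)) (dl y)) x) =
        fun V => if V ∈ G then (X V (dl y)) x else (X₀ (dl y)) x := by
      funext V
      by_cases hV : V ∈ G
      · simp only [if_pos hV]
      · simp only [if_neg hV]
    rw [e]
    exact Measurable.ite hG (hmeas x y) measurable_const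
  · obtain ⟨R, hR⟩ := hbdd
    refine ⟨max R ‖X₀‖, fun V => ?_⟩
    by_cases hV : V ∈ G
    · rw [if_pos hV]
      exact (hR V).trans (le_max_left _ _)
    · rw [if_neg hV]
      exact le_max_right _ _

/-- the trivial group -/
noncomputable def triv (X : Type) [NormedAddCommGroup X] [InnerProductSpace ℂ X] : UG X where
  U _ := ContinuousLinearMap.id ℂ X
  zero' _ := rfl
  add' _ _ _ := rfl
  norm' _ _ := rfl
  cont' _ := continuous_const

open Classical in
theorem ce_mod {W : (Site d → α) → UG (L2 (Site d))} {G : Set (Site d → α)}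
    (hG : MeasurableSet G) (hinv : ∀ z V, sh z V ∈ G ↔ V ∈ G)
    (hcov : ∀ V ∈ G, ∀ (t : ℝ) (z : Site d) (S : L2 (Site d) →L[ℂ] L2 (Site d)), IsShift z S →
      ∀ ψ, (W (sh z V)).U t (S ψ) = S ((W V).U t ψ))
    (hmeas : ∀ t x y, Measurable fun V => ((W V).U t (dl y)) x) :
    CE fun V => if V ∈ G then W V else triv (L2 (Site d)) := by
  refine ⟨fun t => ?_⟩
  have h := cv_mod (X := fun V => (W V).U t) hG hinv (fun V hV z S hS ψ => hcov V hV t z S hS ψ)
    (hmeas t) ⟨1, fun V => ContinuousLinearMap.opNorm_le_bound _ zero_le_one fun x => by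
      rw [(W V).norm', one_mul]⟩ (ContinuousLinearMap.id ℂ _) (fun z S hS ψ => rfl)
  have e : (fun V => (if V ∈ G then W V else triv (L2 (Site d))).U t) =
      fun V => if V ∈ G then (W V).U t else ContinuousLinearMap.id ℂ _ := by
    funext V
    by_cases hV : V ∈ G
    · simp only [if_pos hV]
    · simp only [if_neg hV]
      rfl
  rw [e]
  exact h

/-- pulling back along the first environment -/
theorem ce_F1 {β : Type} [MeasurableSpace β] {W₁ : (Site d → β) → UG (L2 (Site d))}
    (h : CE W₁) : CE fun V : Site d → β × ℝ => W₁ (F1 V) := by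
  have hF : Measurable (F1 : (Site d → β × ℝ) → Site d → β) := by
    rw [measurable_pi_iff]
    intro x
    exact measurable_fst.comp (measurable_pi_apply x)
  refine ⟨fun t => ⟨fun z S hS V ψ => ?_, fun x y => ?_, ?_⟩⟩
  · exact (h.cv t).cov z S hS (F1 V) ψ
  · exact ((h.cv t).meas x y).comp hF
  · obtain ⟨R, hR⟩ := (h.cv t).bdd
    exact ⟨R, fun V => hR (F1 V)⟩

end Pool.Agent.Helper26.Dj
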