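import Pool.Agent.Helper26.Dj.App
import Pool.Agent.Helper26.Dj.Ac

/-! # No common part with an evolution driven by incomplete information -/

set_option autoImplicit false
set_option linter.unusedSectionVars false

open MeasureTheory Filter Topology ProbabilityTheory
open scoped BigOperators ENNReal NNReal InnerProductSpace ComplexConjugate

namespace Pool.Agent.Helper26.Dj

open Pool.Agent.H5R2.NB Pool.Agent.Helper26.Nb Pool.Agent.Helper26.Cm

variable {d : ℕ} {β : Type} [MeasurableSpace β]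
  {c o : ℝ} {ev : (Site d → ℝ) → UG (L2 (Site d))}

/-- the first environment -/
def F1 (V : Site d → β × ℝ) (x : Site d) : β := (V x).1

/-- the potential -/
def pp (o : ℝ) (r : β × ℝ) : ℝ := r.2 + o

lemma F1_update (V : Site d → β × ℝ) (q : β × ℝ) :
    F1 (Function.update V 0 q) = Function.update (F1 V) 0 q.1 := by
  funext x
  unfold F1
  by_cases h : x = 0
  · subst h; simp
  · simp [Function.update_of_ne h]

lemma pot_update (V : Site d → β × ℝ) (q : β × ℝ) :
    pot (pp o) (Function.update V 0 q) = Function.update (pot (pp o) V) 0 (q.2 + o) := by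
  funext x
  unfold pot pp
  by_cases h : x = 0
  · subst h; simp
  · simp [Function.update_of_ne h]

lemma fam_shift {U : ℝ → UG (L2 (Site d))} {e : L2 (Site d)} (h : Fam U e) (o : ℝ) :
    Fam (fun κ => U (κ + o)) e := by
  intro κ κ' t x
  have := h (κ + o) (κ' + o) t x
  rwa [add_sub_add_right_eq_sub] at this

variable [TopologicalSpace β] [PolishSpace β] [BorelSpace β]

lemma ce_ev (hev : ∀ V, IsGrp c V (ev V)) :
    CE fun V : Site d → β × ℝ => ev (pot (pp o) V) :=
  ⟨fun t => cvU hev (p := pp (β := β) o) (by unfold pp; fun_prop) t⟩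

theorem zeroLV (hev : ∀ V, IsGrp c V (ev V)) {W₁ : (Site d → β) → UG (L2 (Site d))}
    (hW₁ : CE fun V : Site d → β × ℝ => W₁ (F1 V)) (μ' : Measure β) [IsProbabilityMeasure μ']
    (K : Kernel β ℝ) [IsMarkovKernel K] (hK : ∀ᵐ s ∂μ', K s ≪ volume)
    {v : (Site d → β × ℝ) → L2 (Site d) →L[ℂ] L2 (Site d)} (hv : LV v) :
    Tendsto (fun N : ℕ => ∫⁻ V, ‖gP (W₁ (F1 V)) (ev (pot (pp o) V)) (v V) N (dl 0)‖ₑ ^ 2
      ∂(Measure.infinitePi fun _ : Site d => μ' ⊗ₘ K)) atTop (𝓝 0) ∧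
    Tendsto (fun N : ℕ => ∫⁻ V, ‖gM (W₁ (F1 V)) (ev (pot (pp o) V)) (v V) N (dl 0)‖ₑ ^ 2
      ∂(Measure.infinitePi fun _ : Site d => μ' ⊗ₘ K)) atTop (𝓝 0) := by
  set P : Measure (Site d → β × ℝ) := Measure.infinitePi fun _ : Site d => μ' ⊗ₘ K with hP
  obtain ⟨Nk, b, hNk, hb, hL2, hM2, hgood⟩ := vlimG hW₁ (ce_ev (β := β) (o := o) hev) hv.cv (μ' ⊗ₘ K)
  have hmp := mp_update (d := d) (μ' ⊗ₘ K)
  obtain ⟨b', hb', hbb'⟩ := hb
  have hmeas : MeasurableSet {V : Site d → β × ℝ | b' V = 0} := by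
    have e1 : {V : Site d → β × ℝ | b' V = 0} = (fun V => ‖b' V‖) ⁻¹' {0} := by
      ext V
      simp
    rw [e1]
    exact hb'.norm.measurable (measurableSet_singleton 0)
  have hg2 : ∀ᵐ p ∂(P.prod (μ' ⊗ₘ K)), ∃ B : L2 (Site d) →L[ℂ] L2 (Site d),
      GGood (W₁ (F1 (Function.update p.1 0 p.2))) (ev (pot (pp o) (Function.update p.1 0 p.2)))
        (v (Function.update p.1 0 p.2)) Nk B ∧ B (dl 0) = b' (Function.update p.1 0 p.2) := by
    refine hmp.quasiMeasurePreserving.ae (p := fun V => ∃ B : L2 (Site d) →L[ℂ] L2 (Site d),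
      GGood (W₁ (F1 V)) (ev (pot (pp o) V)) (v V) Nk B ∧ B (dl 0) = b' V) ?_
    filter_upwards [hgood, hbb'] with V hV hVb
    obtain ⟨B, hB, hBb⟩ := hV
    exact ⟨B, hB, hBb.trans hVb⟩
  have hg3 := Measure.ae_ae_of_ae_prod hg2
  have key : ∀ᵐ V ∂P, ∀ᵐ q ∂(μ' ⊗ₘ K), b' (Function.update V 0 q) = 0 := by
    filter_upwards [hg3] with V hV
    have hV2 := Measure.ae_ae_of_ae_compProd hV
    have hms : MeasurableSet {q : β × ℝ | b' (Function.update V 0 q) = 0} := by
      have hm : Measurable fun q : β × ℝ => Function.update V (0 : Site d) q :=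
        meas_update.comp (measurable_const.prodMk measurable_id)
      exact hm hmeas
    refine (Measure.ae_compProd_iff hms).2 ?_
    filter_upwards [hV2, hK] with s' hs' hC
    classical
    set B : ℝ → L2 (Site d) →L[ℂ] L2 (Site d) := fun κ =>
      if h : ∃ B : L2 (Site d) →L[ℂ] L2 (Site d),
        GGood (W₁ (Function.update (F1 V) 0 s')) (ev (Function.update (pot (pp o) V) 0 (κ + o)))
          (v (Function.update V 0 (s', κ))) Nk B ∧ B (dl 0) = b' (Function.update V 0 (s', κ))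
      then h.choose else 0 with hB
    have hBg : ∀ᵐ κ ∂(K s'), GGood (W₁ (Function.update (F1 V) 0 s'))
        (ev (Function.update (pot (pp o) V) 0 (κ + o))) (v (Function.update V 0 (s', κ))) Nk
          (B κ) ∧ B κ (dl 0) = b' (Function.update V 0 (s', κ)) := by
      filter_upwards [hs'] with κ hκ
      rw [F1_update, pot_update] at hκ
      simp only [hB]
      rw [dif_pos hκ]
      exact hκ.choose_spec
    have hfam := fam_shift (t_FAM ALL.a_UN d c ev hev (pot (pp o) V)) o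
    have hz := kvC (W₁ (Function.update (F1 V) 0 s'))
      (fun κ => ev (Function.update (pot (pp o) V) 0 (κ + o)))
      (dl 0) hfam (K s') hC Nk hNk (fun κ => v (Function.update V 0 (s', κ)))
      (hv.cu V (fun κ => (s', κ)) (by fun_prop)) (fun κ κ' => hv.fr V (s', κ) (s', κ')) B
      (by filter_upwards [hBg] with κ hκ using hκ.1)
    filter_upwards [hBg, hz] with κ h1 h2
    rw [← h1.2, h2]
  have hprod : ∀ᵐ p ∂(P.prod (μ' ⊗ₘ K)),
      Function.update p.1 0 p.2 ∈ {V : Site d → β × ℝ | b' V = 0} := by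
    refine (Measure.ae_prod_iff_ae_ae ?_).2 key
    exact hmp.measurable hmeas
  have hfin : ∀ᵐ V ∂P, V ∈ {V : Site d → β × ℝ | b' V = 0} := by
    rw [hP, ← hmp.map_eq]
    exact (ae_map_iff hmp.measurable.aemeasurable hmeas).2 hprod
  constructor
  · refine hL2.congr fun N => ?_
    refine lintegral_congr_ae ?_
    filter_upwards [hfin, hbb'] with V hV hVb
    have h0 : b V = 0 := hVb.trans hV
    rw [h0, sub_zero]
  · refine hM2.congr fun N => ?_
    refine lintegral_congr_ae ?_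
    filter_upwards [hfin, hbb'] with V hV hVb
    have h0 : b V = 0 := hVb.trans hV
    rw [h0, sub_zero]

theorem zeroCv (hev : ∀ V, IsGrp c V (ev V)) {W₁ : (Site d → β) → UG (L2 (Site d))}
    (hW₁ : CE fun V : Site d → β × ℝ => W₁ (F1 V)) (μ' : Measure β) [IsProbabilityMeasure μ']
    (K : Kernel β ℝ) [IsMarkovKernel K] (hK : ∀ᵐ s ∂μ', K s ≪ volume)
    {X : (Site d → β × ℝ) → L2 (Site d) →L[ℂ] L2 (Site d)} (hX : Cv X) :
    Tendsto (fun N : ℕ => eLpNorm (fun V => gP (W₁ (F1 V)) (ev (pot (pp o) V)) (X V) N (dl 0)) 2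
      (Measure.infinitePi fun _ : Site d => μ' ⊗ₘ K)) atTop (𝓝 0) := by
  set P : Measure (Site d → β × ℝ) := Measure.infinitePi fun _ : Site d => μ' ⊗ₘ K with hP
  have hne : Nonempty β := by
    by_contra h
    rw [not_nonempty_iff] at h
    have h1 : μ' Set.univ = 1 := measure_univ
    rw [Set.eq_empty_of_isEmpty (Set.univ : Set β), measure_empty] at h1
    exact zero_ne_one h1
  have hin : Inhabited β := Classical.inhabited_of_nonempty hne
  have hW := ce_ev (β := β) (o := o) hev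
  have hc0 : StronglyMeasurable fun _ : Site d → β × ℝ => (dl 0 : L2 (Site d)) :=
    stronglyMeasurable_const
  rw [ENNReal.tendsto_nhds_zero]
  intro ε hε
  have h2 : ε / 2 ≠ 0 := by simp [hε.ne']
  obtain ⟨v, hv, hvX⟩ := app hX (μ' ⊗ₘ K) h2
  have hz := (zeroLV (o := o) hev hW₁ μ' K hK hv).1
  have hev1 := (tendsto_order.1 hz).2 ((ε / 2) ^ 2) (by positivity)
  filter_upwards [hev1, eventually_gt_atTop 0] with N hN hN0
  have e : (fun V => gP (W₁ (F1 V)) (ev (pot (pp o) V)) (X V) N (dl 0)) =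
      (fun V => gP (W₁ (F1 V)) (ev (pot (pp o) V)) (v V) N (dl 0)) +
        fun V => gP (W₁ (F1 V)) (ev (pot (pp o) V)) (X V - v V) N (dl 0) := by
    funext V
    rw [Pi.add_apply, ← gP_vadd, add_sub_cancel]
  rw [e]
  have hD : Cv fun V => X V - v V := hX.sub hv.cv
  refine (eLpNorm_add_le (sm_gP hW₁ hW hv.cv hc0 N).aestronglyMeasurable
    (sm_gP hW₁ hW hD hc0 N).aestronglyMeasurable (by norm_num)).trans ?_
  have h5 := avg_le (W' := fun V : Site d → β × ℝ => W₁ (F1 V)) hW hD (μ' ⊗ₘ K) N hN0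
  have h6 : eLpNorm (fun V => gP (W₁ (F1 V)) (ev (pot (pp o) V)) (X V - v V) N (dl 0)) 2 P ≤
      ε / 2 := by
    refine n2_le _ _ _ (h5.trans ?_)
    rw [← n2_sq]
    have h7 : (fun V => (X V - v V) (dl 0)) = fun V => X V (dl 0) - v V (dl 0) := by
      funext V
      rw [_root_.sub_apply]
    rw [h7]
    exact pow_le_pow_left₀ (zero_le) hvX 2
  calc _ ≤ ε / 2 + ε / 2 := add_le_add (n2_le _ _ _ hN.le) h6
    _ = ε := ENNReal.add_halves ε

theorem zeroCvM (hev : ∀ V, IsGrp c V (ev V)) {W₁ : (Site d → β) → UG (L2 (Site d))}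
    (hW₁ : CE fun V : Site d → β × ℝ => W₁ (F1 V)) (μ' : Measure β) [IsProbabilityMeasure μ']
    (K : Kernel β ℝ) [IsMarkovKernel K] (hK : ∀ᵐ s ∂μ', K s ≪ volume)
    {X : (Site d → β × ℝ) → L2 (Site d) →L[ℂ] L2 (Site d)} (hX : Cv X) :
    Tendsto (fun N : ℕ => eLpNorm (fun V => gM (W₁ (F1 V)) (ev (pot (pp o) V)) (X V) N (dl 0)) 2
      (Measure.infinitePi fun _ : Site d => μ' ⊗ₘ K)) atTop (𝓝 0) := by
  set P : Measure (Site d → β × ℝ) := Measure.infinitePi fun _ : Site d => μ' ⊗ₘ K with hP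
  have hne : Nonempty β := by
    by_contra h
    rw [not_nonempty_iff] at h
    have h1 : μ' Set.univ = 1 := measure_univ
    rw [Set.eq_empty_of_isEmpty (Set.univ : Set β), measure_empty] at h1
    exact zero_ne_one h1
  have hin : Inhabited β := Classical.inhabited_of_nonempty hne
  have hW := ce_ev (β := β) (o := o) hev
  have hc0 : StronglyMeasurable fun _ : Site d → β × ℝ => (dl 0 : L2 (Site d)) :=
    stronglyMeasurable_const
  rw [ENNReal.tendsto_nhds_zero]
  intro ε hε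
  have h2 : ε / 2 ≠ 0 := by simp [hε.ne']
  obtain ⟨v, hv, hvX⟩ := app hX (μ' ⊗ₘ K) h2
  have hz := (zeroLV (o := o) hev hW₁ μ' K hK hv).2
  have hev1 := (tendsto_order.1 hz).2 ((ε / 2) ^ 2) (by positivity)
  filter_upwards [hev1, eventually_gt_atTop 0] with N hN hN0
  have e : (fun V => gM (W₁ (F1 V)) (ev (pot (pp o) V)) (X V) N (dl 0)) =
      (fun V => gM (W₁ (F1 V)) (ev (pot (pp o) V)) (v V) N (dl 0)) +
        fun V => gM (W₁ (F1 V)) (ev (pot (pp o) V)) (X V - v V) N (dl 0) := by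
    funext V
    rw [Pi.add_apply, ← gM_vadd, add_sub_cancel]
  rw [e]
  have hD : Cv fun V => X V - v V := hX.sub hv.cv
  refine (eLpNorm_add_le (sm_gM hW₁ hW hv.cv hc0 N).aestronglyMeasurable
    (sm_gM hW₁ hW hD hc0 N).aestronglyMeasurable (by norm_num)).trans ?_
  have h5 := avg_leM (W' := fun V : Site d → β × ℝ => W₁ (F1 V)) hW hD (μ' ⊗ₘ K) N hN0
  have h6 : eLpNorm (fun V => gM (W₁ (F1 V)) (ev (pot (pp o) V)) (X V - v V) N (dl 0)) 2 P ≤
      ε / 2 := by
    refine n2_le _ _ _ (h5.trans ?_)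
    rw [← n2_sq]
    have h7 : (fun V => (X V - v V) (dl 0)) = fun V => X V (dl 0) - v V (dl 0) := by
      funext V
      rw [_root_.sub_apply]
    rw [h7]
    exact pow_le_pow_left₀ (zero_le) hvX 2
  calc _ ≤ ε / 2 + ε / 2 := add_le_add (n2_le _ _ _ hN.le) h6
    _ = ε := ENNReal.add_halves ε

end Pool.Agent.Helper26.Dj
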